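import Pool.Agent.Helper245.G45.Core

/-!
# Sets of 45 integers: dropping classes, explicit sets
-/

set_option autoImplicit false

open Filter Finset

namespace Pool.Agent.Helper245.G45

/-- a set with fewer than `p` elements misses a class modulo `p` -/
theorem miss_of_lt (A : Finset ℤ) {p : ℕ} (h : A.card < p) : ∃ c : ℤ, ∀ a ∈ A, ¬ a ≡ c [ZMOD p] := by
  classical
  by_contra hcon
  push Not at hcon
  have hp : (0 : ℤ) < p := by
    have : 0 < p := by omega
    exact_mod_cast this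
  choose f hf1 hf2 using hcon
  have h1 : ((Finset.range p).image (fun c : ℕ => f c)).card ≤ A.card :=
    Finset.card_le_card (by
      intro a ha
      obtain ⟨c, -, rfl⟩ := Finset.mem_image.1 ha
      exact hf1 c)
  rw [Finset.card_image_of_injOn, Finset.card_range] at h1
  · omega
  · intro c hc c' hc' hcc
    have h2 : (c : ℤ) ≡ c' [ZMOD p] := by
      have h3 := hf2 (c : ℤ)
      have h4 := hf2 (c' : ℤ)
      have h5 : f (c : ℤ) = f (c' : ℤ) := hcc
      rw [h5] at h3
      exact h3.symm.trans h4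
    rw [Finset.coe_range, Set.mem_Iio] at hc hc'
    exact Nat.ModEq.eq_of_lt_of_lt ((Int.natCast_modEq_iff).1 h2) hc hc'

/-- drop the class with the fewest elements -/
theorem drop_one (S : Finset ℤ) {p : ℕ} (hp : 0 < p) :
    ∃ S' ⊆ S, S.card - S.card / p ≤ S'.card ∧ ∃ c : ℤ, ∀ a ∈ S', ¬ a ≡ c [ZMOD p] := by
  classical
  have hsum : ∑ c ∈ range p, (S.filter (fun a => a ≡ (c : ℤ) [ZMOD p])).card ≤ S.card := by
    have h1 : ∑ c ∈ range p, (S.filter (fun a => a ≡ (c : ℤ) [ZMOD p])).card =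
        ∑ a ∈ S, ((range p).filter (fun c : ℕ => a ≡ (c : ℤ) [ZMOD p])).card := by
      simp only [card_filter]
      exact sum_comm
    rw [h1]
    refine (sum_le_sum (g := fun _ => 1) fun a _ => ?_).trans (by simp)
    rw [card_le_one]
    intro x hx y hy
    rw [mem_filter, mem_range] at hx hy
    have h2 : (x : ℤ) ≡ y [ZMOD p] := hx.2.symm.trans hy.2
    exact Nat.ModEq.eq_of_lt_of_lt ((Int.natCast_modEq_iff).1 h2) hx.1 hy.1
  obtain ⟨c, hc, hcard⟩ : ∃ c ∈ range p,
      (S.filter (fun a => a ≡ (c : ℤ) [ZMOD p])).card ≤ S.card / p := by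
    by_contra hcon
    push Not at hcon
    have h1 : ∑ _c ∈ range p, (S.card / p + 1) ≤
        ∑ c ∈ range p, (S.filter (fun a => a ≡ (c : ℤ) [ZMOD p])).card :=
      sum_le_sum fun n hn => hcon n hn
    rw [sum_const, card_range, smul_eq_mul] at h1
    have h2 := h1.trans hsum
    have h3 : S.card < p * (S.card / p + 1) := Nat.lt_mul_div_succ S.card hp
    omega
  refine ⟨S.filter (fun a => ¬ a ≡ (c : ℤ) [ZMOD p]), filter_subset _ _, ?_, c,
    fun a ha => (mem_filter.1 ha).2⟩
  have := card_filter_add_card_filter_not (s := S) (fun a => a ≡ (c : ℤ) [ZMOD p])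
  omega

theorem sub_div_mono (p : ℕ) : Monotone (fun n : ℕ => n - n / p) := by
  apply monotone_nat_of_le_succ
  intro n
  have h1 : (n + 1) / p ≤ n / p + 1 := by
    rcases Nat.eq_zero_or_pos p with h | h
    · subst h; simp
    · calc (n + 1) / p ≤ (n + p) / p := Nat.div_le_div_right (by omega)
        _ = n / p + 1 := Nat.add_div_right n h
  have h2 : n / p ≤ n := Nat.div_le_self n p
  show n - n / p ≤ (n + 1) - (n + 1) / p
  omega

/-- what is left after dropping classes modulo the members of a list -/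
def left (L : List ℕ) (n : ℕ) : ℕ := L.foldl (fun n p => n - n / p) n

theorem left_mono (L : List ℕ) : Monotone (left L) := by
  induction L with
  | nil => intro a b h; exact h
  | cons p L ih => intro a b h; exact ih (sub_div_mono p h)

theorem drop_list (L : List ℕ) (hL : ∀ p ∈ L, 0 < p) (S : Finset ℤ) :
    ∃ S' ⊆ S, left L S.card ≤ S'.card ∧ ∀ p ∈ L, ∃ c : ℤ, ∀ a ∈ S', ¬ a ≡ c [ZMOD p] := by
  induction L generalizing S with
  | nil => exact ⟨S, subset_rfl, le_refl _, by simp⟩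
  | cons p L ih =>
    obtain ⟨S1, h1, h2, c, hc⟩ := drop_one S (hL p (by simp))
    obtain ⟨S2, h3, h4, h5⟩ := ih (fun q hq => hL q (by simp [hq])) S1
    refine ⟨S2, h3.trans h1, (left_mono L h2).trans h4, ?_⟩
    intro q hq
    rcases List.mem_cons.1 hq with h6 | h6
    · subst h6
      exact ⟨c, fun a ha => hc a (h3 ha)⟩
    · exact h5 q h6

/-- **Arbitrary sets.** -/
theorem set_gap {C : ℕ} (hEF : EF C) (hLS : LS) (q : ℕ) (hq : 1 ≤ q) (r : ℤ)
    (hr : IsCoprime r (q : ℤ)) (S : Finset ℤ) (hS : ∀ a ∈ S, ∀ b ∈ S, a ≡ b [ZMOD q])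
    (L : List ℕ) (hL : ∀ p ∈ L, p.Prime) (hLq : ∀ p : ℕ, p.Prime → p ≤ 43 → p ∣ q ∨ p ∈ L)
    (hcard : 45 ≤ left L S.card) :
    ∃ a ∈ S, ∃ b ∈ S, a < b ∧ ∃ᶠ x : ℝ in atTop,
      x / Real.log x ^ (C + 1) ≤ ((gapIdx q r (b - a) x).ncard : ℝ) := by
  classical
  obtain ⟨S1, h1, h2, h3⟩ := drop_list L (fun p hp => (hL p hp).pos) S
  obtain ⟨A, hA1, hA2⟩ := exists_subset_card_eq (hcard.trans h2)
  have hne : A.Nonempty := Finset.card_pos.1 (by omega)
  obtain ⟨a0, ha0⟩ := hne
  obtain ⟨a, ha, b, hb, hab, h⟩ := core hEF hLS q hq r hr A hA2.ge a0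
    (fun a ha => hS a (h1 (hA1 ha)) a0 (h1 (hA1 ha0)))
    (by
      intro p hp hpq
      rcases le_or_gt p 43 with h43 | h43
      · rcases hLq p hp h43 with h4 | h4
        · exact absurd h4 hpq
        · obtain ⟨c, hc⟩ := h3 p h4
          exact ⟨c, fun a ha => hc a (hA1 ha)⟩
      · apply miss_of_lt
        have h5 : p ≠ 44 := by rintro rfl; exact absurd hp (by norm_num)
        have h6 : p ≠ 45 := by rintro rfl; exact absurd hp (by norm_num)
        omega)
  exact ⟨a, h1 (hA1 ha), b, h1 (hA1 hb), hab, h⟩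

/-- **Multiples.** `E` is a set of 45 natural numbers up to `K` which misses a class modulo every prime
`p ≤ 43` that does not divide `N`. -/
theorem mult_gap {C : ℕ} (hEF : EF C) (hLS : LS) (N : ℕ) (hN : 1 ≤ N) (r : ℤ)
    (hr : IsCoprime r (N : ℤ)) (E : Finset ℕ) (hE : 45 ≤ E.card) (K : ℕ) (hK : ∀ e ∈ E, e ≤ K)
    (hcls : ∀ p : ℕ, p.Prime → p ≤ 43 → p ∣ N ∨ ∃ c : ℕ, ∀ e ∈ E, ¬ e % p = c % p) :
    ∃ k : ℕ, 1 ≤ k ∧ k ≤ K ∧ ∃ᶠ x : ℝ in atTop,
      x / Real.log x ^ (C + 1) ≤ ((gapIdx N r (k * N) x).ncard : ℝ) := by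
  classical
  obtain ⟨E', hE'1, hE'2⟩ := exists_subset_card_eq hE
  have hNz : (0 : ℤ) < N := by exact_mod_cast hN
  have hinj : Function.Injective (fun e : ℕ => (e : ℤ) * N) := by
    intro e e' h
    have h1 := mul_right_cancel₀ hNz.ne' h
    exact_mod_cast h1
  obtain ⟨a, ha, b, hb, hab, h⟩ := core hEF hLS N hN r hr (E'.image (fun e : ℕ => (e : ℤ) * N))
    (by rw [Finset.card_image_of_injective _ hinj]; omega) 0
    (by
      intro a ha
      obtain ⟨e, -, rfl⟩ := Finset.mem_image.1 ha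
      exact Int.modEq_zero_iff_dvd.2 (Dvd.intro_left _ rfl))
    (by
      intro p hp hpN
      rcases le_or_gt p 43 with h43 | h43
      · rcases hcls p hp h43 with h4 | h4
        · exact absurd h4 hpN
        · obtain ⟨c, hc⟩ := h4
          refine ⟨(c : ℤ) * N, fun a ha h5 => ?_⟩
          obtain ⟨e, he, rfl⟩ := Finset.mem_image.1 ha
          apply hc e (hE'1 he)
          have hcop : Int.gcd (p : ℤ) (N : ℤ) = 1 := by
            rw [Int.gcd_natCast_natCast]
            exact (Nat.Prime.coprime_iff_not_dvd hp).2 hpN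
          have h6 : (e : ℤ) ≡ c [ZMOD p] := by
            have h7 := Int.modEq_iff_dvd.1 h5
            have h8 : (c : ℤ) * N - e * N = N * (c - e) := by ring
            rw [h8] at h7
            exact Int.modEq_iff_dvd.2 ((Int.isCoprime_iff_gcd_eq_one.2 hcop).dvd_of_dvd_mul_left h7)
          exact (Int.natCast_modEq_iff).1 h6
      · apply miss_of_lt
        rw [Finset.card_image_of_injective _ hinj]
        have h5 : p ≠ 44 := by rintro rfl; exact absurd hp (by norm_num)
        have h6 : p ≠ 45 := by rintro rfl; exact absurd hp (by norm_num)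
        omega)
  obtain ⟨e, he, rfl⟩ := Finset.mem_image.1 ha
  obtain ⟨e', he', rfl⟩ := Finset.mem_image.1 hb
  have hlt : (e : ℤ) < e' := lt_of_mul_lt_mul_right hab hNz.le
  have hlt' : e < e' := by exact_mod_cast hlt
  refine ⟨e' - e, by omega, ?_, ?_⟩
  · have := hK e' (hE'1 he')
    omega
  · have h1 : (e' : ℤ) * N - e * N = ((e' - e : ℕ) : ℤ) * N := by
      rw [Nat.cast_sub hlt'.le]; ring
    rw [h1] at h
    exact h

end Pool.Agent.Helper245.G45
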