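import Mathlib

/-!
# Gaps between consecutive primes from sets of 45 integers

`EF C` is the theorem on 45 linear forms (`Pool.Agent.Y876.FF.exact_forms` with `lh45`), with a count
`x / (log x) ^ C`. `core`: among the differences of 45 integers in one residue class modulo `q`, which miss a
class modulo every prime that does not divide `q`, there is a gap between consecutive primes.
-/

set_option autoImplicit false

open Filter Finset

namespace Pool.Agent.Helper245.G45

/-- the theorem on forty-five linear forms -/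
def EF (C : ℕ) : Prop := ∀ (ι : Type) [Fintype ι] (a b : ι → ℤ),
    (∀ i, 0 < a i) → (∀ i j, i ≠ j → a i * b j ≠ a j * b i) → ∀ S : Finset ι, 45 ≤ S.card →
    (∀ p : ℕ, p.Prime → ∃ n : ℕ, ∀ i ∈ S, ¬ (p : ℤ) ∣ a i * n + b i) →
    ∃ T : Finset ι, T ⊆ S ∧ 2 ≤ T.card ∧ ∃ᶠ x : ℝ in atTop,
      x / Real.log x ^ C ≤ (Set.ncard {n : ℕ | (n : ℝ) ≤ x ∧
        ∀ i, (a i * (n : ℤ) + b i).natAbs.Prime ↔ i ∈ T} : ℝ)

/-- the elementary lemma on the change of variable -/
def LS : Prop := ∀ (ν w : ℝ), 0 ≤ ν → 1 ≤ w → ∀ C : ℕ,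
    ∀ᶠ x : ℝ in atTop, x / Real.log x ^ (C + 1) ≤ ((x - ν) / w) / Real.log ((x - ν) / w) ^ C

/-- the indices `n` with `p_n ≤ x`, `p_n ≡ r (mod q)` and `p_{n+1} - p_n = d` -/
def gapIdx (q : ℕ) (r d : ℤ) (x : ℝ) : Set ℕ :=
  {n : ℕ | (Nat.nth Nat.Prime n : ℝ) ≤ x ∧ (Nat.nth Nat.Prime n : ℤ) ≡ r [ZMOD q] ∧
    (Nat.nth Nat.Prime (n + 1) : ℤ) - Nat.nth Nat.Prime n = d}

theorem gapIdx_finite (q : ℕ) (r d : ℤ) (x : ℝ) : (gapIdx q r d x).Finite := by
  rcases lt_or_ge x 0 with hx | hx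
  · have : gapIdx q r d x = ∅ := by
      ext m
      simp only [gapIdx, Set.mem_ofPred_eq, Set.mem_empty_iff_false, iff_false, not_and]
      intro h
      exfalso
      have : (0 : ℝ) ≤ (Nat.nth Nat.Prime m : ℝ) := Nat.cast_nonneg _
      linarith
    rw [this]
    exact Set.finite_empty
  · apply (Set.finite_Iic ⌊x⌋₊).subset
    rintro n ⟨hn, -⟩
    rw [Set.mem_Iic, Nat.le_floor_iff hx]
    refine le_trans ?_ hn
    exact_mod_cast (Nat.nth_strictMono Nat.infinite_setOfPred_prime).le_apply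

/-- consecutive primes `p < p'` without primes in between -/
theorem nth_consec {p p' : ℕ} (hp : p.Prime) (hp' : p'.Prime) (hlt : p < p')
    (hno : ∀ m, p < m → m < p' → ¬ m.Prime) :
    Nat.nth Nat.Prime (Nat.count Nat.Prime p) = p ∧
      Nat.nth Nat.Prime (Nat.count Nat.Prime p + 1) = p' := by
  refine ⟨Nat.nth_count hp, ?_⟩
  have h1 : Nat.count Nat.Prime p' = Nat.count Nat.Prime p + 1 := by
    have h2 : Nat.count Nat.Prime (p + 1) = Nat.count Nat.Prime p + 1 := by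
      rw [Nat.count_succ, if_pos hp]
    rw [← h2]
    apply le_antisymm
    · by_contra hcon
      push Not at hcon
      -- some prime in `[p+1, p')`
      set k := Nat.count Nat.Prime (p + 1) with hk
      have h3 : Nat.nth Nat.Prime k < p' := Nat.nth_lt_of_lt_count hcon
      have h4 : (Nat.nth Nat.Prime k).Prime := Nat.nth_mem_of_infinite Nat.infinite_setOfPred_prime _
      have h5 : p + 1 ≤ Nat.nth Nat.Prime k := by
        rw [hk]
        exact Nat.le_nth_count Nat.infinite_setOfPred_prime _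
      exact hno _ (by omega) h3 h4
    · exact Nat.count_monotone _ (by omega)
  rw [← h1]
  exact Nat.nth_count hp'

theorem core_pos {C : ℕ} (hEF : EF C) (hLS : LS) (q : ℕ) (hq : 1 ≤ q) (r : ℤ)
    (hr : IsCoprime r (q : ℤ)) (A : Finset ℤ) (hA : 45 ≤ A.card) (hpos : ∀ a ∈ A, 0 < a)
    (hres : ∀ a ∈ A, a ≡ r [ZMOD q])
    (hadm : ∀ p : ℕ, p.Prime → ¬ p ∣ q → ∃ c : ℤ, ∀ a ∈ A, ¬ a ≡ c [ZMOD p]) :
    ∃ a ∈ A, ∃ b ∈ A, a < b ∧ ∃ᶠ x : ℝ in atTop,
      x / Real.log x ^ (C + 1) ≤ ((gapIdx q r (b - a) x).ncard : ℝ) := by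
  classical
  have hne : A.Nonempty := Finset.card_pos.1 (by omega)
  set m := A.min' hne with hm
  set M := A.max' hne with hM
  have hqz : (0 : ℤ) < q := by exact_mod_cast hq
  have hmpos : 0 < m := hpos _ (A.min'_mem hne)
  let ι := ↥(Finset.Icc m M)
  let S : Finset ι := Finset.univ.filter (fun i : ι => (i : ℤ) ∈ A)
  have hmemI : ∀ a ∈ A, a ∈ Finset.Icc m M := fun a ha =>
    Finset.mem_Icc.2 ⟨A.min'_le a ha, A.le_max' a ha⟩
  have hScard : S.card = A.card := by
    refine Finset.card_bij (fun i _ => (i : ℤ)) ?_ ?_ ?_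
    · intro i hi; exact (Finset.mem_filter.1 hi).2
    · intro i _ j _ hij; exact Subtype.ext hij
    · intro a ha
      exact ⟨⟨a, hmemI a ha⟩, Finset.mem_filter.2 ⟨Finset.mem_univ _, ha⟩, rfl⟩
  obtain ⟨T, hTS, hTc, hfreq⟩ := hEF ι (fun _ => (q : ℤ)) (fun i => (i : ℤ)) (fun _ => hqz)
    (by
      intro i j hij h
      apply hij
      have := mul_left_cancel₀ hqz.ne' h
      exact Subtype.ext this.symm)
    S (by rw [hScard]; exact hA)
    (by
      intro p hp
      by_cases hpq : p ∣ q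
      · refine ⟨0, fun i hi hd => ?_⟩
        have hiA : (i : ℤ) ∈ A := (Finset.mem_filter.1 hi).2
        have h1 : (p : ℤ) ∣ (i : ℤ) := by simpa using hd
        have h2 : (p : ℤ) ∣ (i : ℤ) - r := by
          have h3 : (q : ℤ) ∣ (i : ℤ) - r := (hres _ hiA).symm.dvd
          exact (Int.natCast_dvd_natCast.2 hpq).trans h3
        have h3 : (p : ℤ) ∣ r := by
          have := dvd_sub h1 h2
          simpa using this
        have h4 : IsUnit (p : ℤ) := hr.isUnit_of_dvd' h3 (Int.natCast_dvd_natCast.2 hpq)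
        have h5 := Int.isUnit_iff.1 h4
        have h6 := hp.two_le
        rcases h5 with h5 | h5 <;> omega
      · obtain ⟨c, hc⟩ := hadm p hp hpq
        have hcop : IsCoprime (q : ℤ) (p : ℤ) := by
          rw [Nat.isCoprime_iff_coprime]
          exact ((Nat.Prime.coprime_iff_not_dvd hp).2 hpq).symm
        obtain ⟨u, v, huv⟩ := hcop
        have hp0 : (p : ℤ) ≠ 0 := by exact_mod_cast hp.ne_zero
        -- n ≡ -c u mod p
        refine ⟨((-c * u) % p).toNat, fun i hi hd => ?_⟩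
        have hiA : (i : ℤ) ∈ A := (Finset.mem_filter.1 hi).2
        rw [Int.toNat_of_nonneg (Int.emod_nonneg _ hp0)] at hd
        apply hc _ hiA
        have h1 : (p : ℤ) ∣ (-c * u) - (-c * u) % p := Int.dvd_self_sub_emod
        obtain ⟨k, hk⟩ := hd
        obtain ⟨l, hl⟩ := h1
        refine (Int.modEq_iff_dvd.2 ?_)
        refine ⟨v * c - k - l * q, ?_⟩
        have h2 : (-c * u) % p = -c * u - p * l := by linarith
        rw [h2] at hk
        have h3 : c = c * (u * q + v * p) := by rw [huv, mul_one]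
        nlinarith [hk, h3])
  -- a = min T, b = next element
  have hTne : T.Nonempty := Finset.card_pos.1 (by omega)
  set t₀ := T.min' hTne with ht₀
  have hT2 : (T.erase t₀).Nonempty := by
    apply Finset.card_pos.1
    rw [Finset.card_erase_of_mem (T.min'_mem hTne)]
    omega
  set t₁ := (T.erase t₀).min' hT2 with ht₁
  have ht₀T : t₀ ∈ T := T.min'_mem hTne
  have ht₁T : t₁ ∈ T := Finset.mem_of_mem_erase ((T.erase t₀).min'_mem hT2)
  have hne01 : t₁ ≠ t₀ := Finset.ne_of_mem_erase ((T.erase t₀).min'_mem hT2)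
  have hle01 : t₀ ≤ t₁ := T.min'_le _ ht₁T
  have hlt01 : (t₀ : ℤ) < (t₁ : ℤ) := by
    have h1 : (t₀ : ℤ) ≤ (t₁ : ℤ) := hle01
    have h2 : (t₀ : ℤ) ≠ (t₁ : ℤ) := fun h => hne01 (Subtype.ext h.symm)
    omega
  have hbetween : ∀ i : ι, (t₀ : ℤ) < i → (i : ℤ) < t₁ → i ∉ T := by
    intro i h1 h2 hiT
    have h3 : i ∈ T.erase t₀ := Finset.mem_erase.2 ⟨fun h => by rw [h] at h1; omega, hiT⟩
    have h4 : t₁ ≤ i := (T.erase t₀).min'_le _ h3
    have h5 : (t₁ : ℤ) ≤ i := h4
    omega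
  have ht₀A : (t₀ : ℤ) ∈ A := (Finset.mem_filter.1 (hTS ht₀T)).2
  have ht₁A : (t₁ : ℤ) ∈ A := (Finset.mem_filter.1 (hTS ht₁T)).2
  refine ⟨t₀, ht₀A, t₁, ht₁A, hlt01, ?_⟩
  have ht₀pos : (0 : ℤ) < t₀ := hpos _ ht₀A
  set s : ℕ := (t₀ : ℤ).toNat with hs
  have hsz : (s : ℤ) = t₀ := Int.toNat_of_nonneg ht₀pos.le
  -- the frequently statement in the variable `y = q x + s`
  have hq1 : (1 : ℝ) ≤ (q : ℝ) := by exact_mod_cast hq
  have hq0 : (0 : ℝ) < (q : ℝ) := by linarith
  have htend : Tendsto (fun x : ℝ => (q : ℝ) * x + s) atTop atTop :=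
    tendsto_atTop_add_const_right _ _ (tendsto_id.const_mul_atTop hq0)
  set N : ℝ → Set ℕ := fun x => {n : ℕ | (n : ℝ) ≤ x ∧
        ∀ i : ι, ((q : ℤ) * (n : ℤ) + (i : ℤ)).natAbs.Prime ↔ i ∈ T} with hN
  have hcount : ∀ y : ℝ, ((N ((y - s) / q)).ncard : ℝ) ≤ ((gapIdx q r (t₁ - t₀) y).ncard : ℝ) := by
    intro y
    refine Nat.cast_le.2 ?_
    refine Set.ncard_le_ncard_of_injOn (fun n => Nat.count Nat.Prime (q * n + s)) ?_ ?_
      (gapIdx_finite _ _ _ _)
    · rintro n ⟨hn1, hn2⟩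
      have hval : ∀ i : ι, (((q : ℤ) * (n : ℤ) + (i : ℤ)).natAbs : ℤ) = (q : ℤ) * (n : ℤ) + (i : ℤ) := by
        intro i
        apply Int.natAbs_of_nonneg
        have h1 := (Finset.mem_Icc.1 i.2).1
        have h2 : (0 : ℤ) ≤ (q : ℤ) * n := by positivity
        omega
      have hv0 : ((q : ℤ) * (n : ℤ) + (t₀ : ℤ)).natAbs = q * n + s := by
        have h1 := hval t₀
        rw [← hsz] at h1 ⊢
        exact_mod_cast h1
      have hp : (q * n + s).Prime := by rw [← hv0]; exact (hn2 t₀).2 ht₀T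
      have hp' : (((q : ℤ) * (n : ℤ) + (t₁ : ℤ)).natAbs).Prime := (hn2 t₁).2 ht₁T
      have hlt : q * n + s < ((q : ℤ) * (n : ℤ) + (t₁ : ℤ)).natAbs := by
        have h1 := hval t₁
        have h2 : ((q * n + s : ℕ) : ℤ) = (q : ℤ) * n + t₀ := by push_cast; rw [hsz]
        omega
      obtain ⟨e1, e2⟩ := nth_consec hp hp' hlt (by
        intro w hw1 hw2 hw
        have h1 := hval t₁
        have h2 : ((q * n + s : ℕ) : ℤ) = (q : ℤ) * n + t₀ := by push_cast; rw [hsz]
        have h3 : (t₀ : ℤ) < (w : ℤ) - q * n := by omega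
        have h4 : (w : ℤ) - q * n < t₁ := by omega
        have h5 : (w : ℤ) - q * n ∈ Finset.Icc m M := by
          rw [Finset.mem_Icc]
          have h6 := (Finset.mem_Icc.1 t₀.2).1
          have h7 := (Finset.mem_Icc.1 t₁.2).2
          omega
        have h6 := hbetween ⟨_, h5⟩ h3 h4
        apply h6
        rw [← hn2]
        have h7 : ((q : ℤ) * (n : ℤ) + ((w : ℤ) - q * n)).natAbs = w := by
          have : (q : ℤ) * (n : ℤ) + ((w : ℤ) - q * n) = w := by ring
          rw [this, Int.natAbs_natCast]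
        show (((q : ℤ) * (n : ℤ) + ((w : ℤ) - q * n)).natAbs).Prime
        rw [h7]; exact hw)
      refine ⟨?_, ?_, ?_⟩
      · show ((Nat.nth Nat.Prime (Nat.count Nat.Prime (q * n + s)) : ℕ) : ℝ) ≤ y
        rw [e1]
        push_cast
        rw [le_div_iff₀ hq0] at hn1
        linarith
      · show ((Nat.nth Nat.Prime (Nat.count Nat.Prime (q * n + s)) : ℕ) : ℤ) ≡ r [ZMOD q]
        rw [e1]
        have h1 : ((q * n + s : ℕ) : ℤ) = (q : ℤ) * n + t₀ := by push_cast; rw [hsz]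
        rw [h1]
        have h2 : (q : ℤ) * n + t₀ ≡ 0 + r [ZMOD q] :=
          Int.ModEq.add (Int.modEq_zero_iff_dvd.2 (Dvd.intro _ rfl)) (hres _ ht₀A)
        rwa [zero_add] at h2
      · show ((Nat.nth Nat.Prime (Nat.count Nat.Prime (q * n + s) + 1) : ℕ) : ℤ) -
          ((Nat.nth Nat.Prime (Nat.count Nat.Prime (q * n + s)) : ℕ) : ℤ) = t₁ - t₀
        rw [e1, e2, hval t₁]
        push_cast
        rw [hsz]
        ring
    · rintro n ⟨hn1, hn2⟩ n' ⟨hn1', hn2'⟩ heq
      have hv : ∀ k : ℕ, (∀ i : ι, ((q : ℤ) * (k : ℤ) + (i : ℤ)).natAbs.Prime ↔ i ∈ T) →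
          (q * k + s).Prime := by
        intro k hk
        have h1 : ((q : ℤ) * (k : ℤ) + (t₀ : ℤ)).natAbs = q * k + s := by
          rw [← hsz]
          exact_mod_cast Int.natAbs_natCast (q * k + s)
        rw [← h1]; exact (hk t₀).2 ht₀T
      have h1 := Nat.nth_count (hv n hn2)
      have h2 := Nat.nth_count (hv n' hn2')
      have h3 : Nat.count Nat.Prime (q * n + s) = Nat.count Nat.Prime (q * n' + s) := heq
      rw [h3, h2] at h1
      have h4 : q * n' = q * n := by omega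
      exact (Nat.eq_of_mul_eq_mul_left hq h4).symm
  have h1 : ∃ᶠ y : ℝ in atTop, ((y - s) / q) / Real.log ((y - s) / q) ^ C ≤ ((N ((y - s) / q)).ncard : ℝ) := by
    refine htend.frequently ?_
    refine hfreq.mono fun x hx => ?_
    have h2 : ((q : ℝ) * x + s - s) / q = x := by field_simp; ring
    simp only [h2]
    exact hx
  refine (h1.and_eventually (hLS s q (Nat.cast_nonneg _) hq1 C)).mono fun y hy => ?_
  exact hy.2.trans (hy.1.trans (hcount y))

/-- **Core.** 45 integers in one residue class `r` modulo `q`, coprime to `q`, missing a class modulo every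
prime not dividing `q`. -/
theorem core {C : ℕ} (hEF : EF C) (hLS : LS) (q : ℕ) (hq : 1 ≤ q) (r : ℤ)
    (hr : IsCoprime r (q : ℤ)) (A : Finset ℤ) (hA : 45 ≤ A.card) (r' : ℤ)
    (hres : ∀ a ∈ A, a ≡ r' [ZMOD q])
    (hadm : ∀ p : ℕ, p.Prime → ¬ p ∣ q → ∃ c : ℤ, ∀ a ∈ A, ¬ a ≡ c [ZMOD p]) :
    ∃ a ∈ A, ∃ b ∈ A, a < b ∧ ∃ᶠ x : ℝ in atTop,
      x / Real.log x ^ (C + 1) ≤ ((gapIdx q r (b - a) x).ncard : ℝ) := by
  classical
  have hne : A.Nonempty := Finset.card_pos.1 (by omega)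
  have hqz : (0 : ℤ) < q := by exact_mod_cast hq
  -- shift by `w ≡ r - r'` modulo `q`, large
  set w : ℤ := (r - r') + q * (|r - r'| + |A.min' hne| + 1) with hw
  have hwmin : 0 < A.min' hne + w := by
    have h1 : (1 : ℤ) ≤ q := hqz
    have h2 : |r - r'| + |A.min' hne| + 1 ≤ q * (|r - r'| + |A.min' hne| + 1) := by
      have h3 : 0 ≤ |r - r'| + |A.min' hne| + 1 := by positivity
      nlinarith
    have h4 := neg_abs_le (r - r')
    have h5 := neg_abs_le (A.min' hne)
    rw [hw]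
    linarith
  obtain ⟨a, ha, b, hb, hab, h⟩ := core_pos hEF hLS q hq r hr (A.image (· + w))
    (by rw [Finset.card_image_of_injective _ (add_left_injective w)]; exact hA)
    (by
      intro a ha
      obtain ⟨a', ha', rfl⟩ := Finset.mem_image.1 ha
      have := A.min'_le a' ha'
      show 0 < a' + w
      linarith)
    (by
      intro a ha
      obtain ⟨a', ha', rfl⟩ := Finset.mem_image.1 ha
      have h1 : a' ≡ r' [ZMOD q] := hres a' ha'
      have h2 : w ≡ r - r' + 0 [ZMOD q] :=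
        Int.ModEq.add_left _ (Int.modEq_zero_iff_dvd.2 (Dvd.intro _ rfl))
      have h3 := h1.add h2
      have h4 : r' + (r - r' + 0) = r := by ring
      rwa [h4] at h3)
    (by
      intro p hp hpq
      obtain ⟨c, hc⟩ := hadm p hp hpq
      refine ⟨c + w, fun a ha h => ?_⟩
      obtain ⟨a', ha', rfl⟩ := Finset.mem_image.1 ha
      exact hc a' ha' (Int.ModEq.add_right_cancel' w h))
  obtain ⟨a', ha', rfl⟩ := Finset.mem_image.1 ha
  obtain ⟨b', hb', rfl⟩ := Finset.mem_image.1 hb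
  refine ⟨a', ha', b', hb', by linarith, ?_⟩
  have h1 : b' + w - (a' + w) = b' - a' := by ring
  rw [h1] at h
  exact h

end Pool.Agent.Helper245.G45
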