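import Pool.Agent.Helper245.G45.Core

/-!
# Two consecutive prime values of a finite sequence of linear forms
-/

set_option autoImplicit false

open Filter Finset

namespace Pool.Agent.Helper245.G45

/-- the primes `q = D i * n + b i ≤ x` for which `D j * n + b j` is prime and the values of the forms strictly
between are not prime -/
def consec {m : ℕ} (D b : Fin m → ℤ) (i j : Fin m) (x : ℝ) : Set ℕ :=
  {q : ℕ | (q : ℝ) ≤ x ∧ q.Prime ∧ ∃ n : ℤ, D i * n + b i = q ∧
    (∃ p : ℕ, p.Prime ∧ D j * n + b j = p) ∧ ∀ k, i < k → k < j → ¬ (D k * n + b k).natAbs.Prime}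

theorem consec_finite {m : ℕ} (D b : Fin m → ℤ) (i j : Fin m) (x : ℝ) : (consec D b i j x).Finite := by
  apply (Set.finite_Iic ⌊x⌋₊).subset
  rintro q ⟨hq, -⟩
  exact Nat.le_floor hq

/-- two elements of a finite set without elements in between -/
theorem exists_consec {m : ℕ} (T : Finset (Fin m)) (hT : 2 ≤ T.card) :
    ∃ i ∈ T, ∃ j ∈ T, i < j ∧ ∀ k, i < k → k < j → k ∉ T := by
  classical
  have hTne : T.Nonempty := Finset.card_pos.1 (by omega)
  set t₀ := T.min' hTne with ht₀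
  have hT2 : (T.erase t₀).Nonempty := by
    apply Finset.card_pos.1
    rw [Finset.card_erase_of_mem (T.min'_mem hTne)]
    omega
  set t₁ := (T.erase t₀).min' hT2 with ht₁
  have ht₁T : t₁ ∈ T := Finset.mem_of_mem_erase ((T.erase t₀).min'_mem hT2)
  have hne01 : t₁ ≠ t₀ := Finset.ne_of_mem_erase ((T.erase t₀).min'_mem hT2)
  have hle01 : t₀ ≤ t₁ := T.min'_le _ ht₁T
  refine ⟨t₀, T.min'_mem hTne, t₁, ht₁T, lt_of_le_of_ne hle01 hne01.symm, ?_⟩
  intro k h1 h2 hk
  have h3 : k ∈ T.erase t₀ := Finset.mem_erase.2 ⟨h1.ne', hk⟩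
  exact absurd ((T.erase t₀).min'_le _ h3) (not_le.2 h2)

/-- the case of positive constants -/
theorem forms_pos {C : ℕ} (hEF : EF C) (hLS : LS) {m : ℕ} (D b : Fin m → ℤ) (hD : ∀ i, 1 ≤ D i)
    (hb : ∀ i, 0 < b i) (hne : ∀ i j, i ≠ j → D i * b j ≠ D j * b i)
    (S : Finset (Fin m)) (hS : 45 ≤ S.card)
    (hadm : ∀ p : ℕ, p.Prime → ∃ n : ℤ, ∀ i ∈ S, ¬ (p : ℤ) ∣ D i * n + b i) :
    ∃ i ∈ S, ∃ j ∈ S, i < j ∧ ∃ᶠ x : ℝ in atTop,
      x / Real.log x ^ (C + 1) ≤ ((consec D b i j x).ncard : ℝ) := by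
  classical
  obtain ⟨T, hTS, hTc, hfreq⟩ := hEF (Fin m) D b (fun i => by have := hD i; omega) hne S hS
    (by
      intro p hp
      obtain ⟨n, hn⟩ := hadm p hp
      have hp0 : (p : ℤ) ≠ 0 := by exact_mod_cast hp.ne_zero
      refine ⟨(n % p).toNat, fun i hi hd => hn i hi ?_⟩
      rw [Int.toNat_of_nonneg (Int.emod_nonneg _ hp0)] at hd
      have h1 : (p : ℤ) ∣ n - n % p := Int.dvd_self_sub_emod
      have h2 := dvd_add hd (Dvd.dvd.mul_left h1 (D i))
      have h3 : D i * (n % p) + b i + D i * (n - n % p) = D i * n + b i := by ring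
      rwa [h3] at h2)
  obtain ⟨i, hi, j, hj, hij, hno⟩ := exists_consec T hTc
  refine ⟨i, hTS hi, j, hTS hj, hij, ?_⟩
  set A : ℕ := (D i).toNat with hA
  have hAz : (A : ℤ) = D i := Int.toNat_of_nonneg (by have := hD i; omega)
  set s : ℕ := (b i).toNat with hs
  have hsz : (s : ℤ) = b i := Int.toNat_of_nonneg (hb i).le
  have hA1 : 1 ≤ A := by have := hD i; omega
  have hA1r : (1 : ℝ) ≤ (A : ℝ) := by exact_mod_cast hA1
  have hA0 : (0 : ℝ) < (A : ℝ) := by linarith
  have htend : Tendsto (fun x : ℝ => (A : ℝ) * x + s) atTop atTop :=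
    tendsto_atTop_add_const_right _ _ (tendsto_id.const_mul_atTop hA0)
  set N : ℝ → Set ℕ := fun x => {n : ℕ | (n : ℝ) ≤ x ∧
        ∀ k : Fin m, (D k * (n : ℤ) + b k).natAbs.Prime ↔ k ∈ T} with hN
  have hcount : ∀ y : ℝ, ((N ((y - s) / A)).ncard : ℝ) ≤ ((consec D b i j y).ncard : ℝ) := by
    intro y
    refine Nat.cast_le.2 ?_
    refine Set.ncard_le_ncard_of_injOn (fun n => A * n + s) ?_ ?_ (consec_finite _ _ _ _ _)
    · rintro n ⟨hn1, hn2⟩
      have hval : ∀ k : Fin m, ((D k * (n : ℤ) + b k).natAbs : ℤ) = D k * (n : ℤ) + b k := by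
        intro k
        apply Int.natAbs_of_nonneg
        have h1 := hb k
        have h2 : (0 : ℤ) ≤ D k * n := mul_nonneg (by have := hD k; omega) (by positivity)
        omega
      have hv0 : (D i * (n : ℤ) + b i).natAbs = A * n + s := by
        have h1 := hval i
        rw [← hsz, ← hAz] at h1 ⊢
        exact_mod_cast h1
      refine ⟨?_, ?_, n, ?_, ⟨(D j * (n : ℤ) + b j).natAbs, (hn2 j).2 hj, (hval j).symm⟩, ?_⟩
      · show ((A * n + s : ℕ) : ℝ) ≤ y
        push_cast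
        rw [le_div_iff₀ hA0] at hn1
        linarith
      · show (A * n + s).Prime
        rw [← hv0]; exact (hn2 i).2 hi
      · show D i * (n : ℤ) + b i = ((A * n + s : ℕ) : ℤ)
        push_cast
        rw [hAz, hsz]
      · intro k h1 h2 h3
        exact hno k h1 h2 ((hn2 k).1 h3)
    · rintro n ⟨hn1, hn2⟩ n' ⟨hn1', hn2'⟩ heq
      have h4 : A * n + s = A * n' + s := heq
      exact Nat.eq_of_mul_eq_mul_left (by omega) (Nat.add_right_cancel h4)
  have h1 : ∃ᶠ y : ℝ in atTop, ((y - s) / A) / Real.log ((y - s) / A) ^ C ≤ ((N ((y - s) / A)).ncard : ℝ) := by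
    refine htend.frequently ?_
    refine hfreq.mono fun x hx => ?_
    have h2 : ((A : ℝ) * x + s - s) / A = x := by field_simp; ring
    simp only [h2]
    exact hx
  refine (h1.and_eventually (hLS s A (Nat.cast_nonneg _) hA1r C)).mono fun y hy => ?_
  exact hy.2.trans (hy.1.trans (hcount y))

/-- **Two consecutive prime values** in a finite sequence of forms; the forms are primitive and pairwise
non-proportional, and `S` is an admissible set of at least 45 forms. -/
theorem forms {C : ℕ} (hEF : EF C) (hLS : LS) {m : ℕ} (D b : Fin m → ℤ) (hD : ∀ i, 1 ≤ D i)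
    (hne : ∀ i j, i ≠ j → D i * b j ≠ D j * b i)
    (S : Finset (Fin m)) (hS : 45 ≤ S.card)
    (hadm : ∀ p : ℕ, p.Prime → ∃ n : ℤ, ∀ i ∈ S, ¬ (p : ℤ) ∣ D i * n + b i) :
    ∃ i ∈ S, ∃ j ∈ S, i < j ∧ ∃ᶠ x : ℝ in atTop,
      x / Real.log x ^ (C + 1) ≤ ((consec D b i j x).ncard : ℝ) := by
  classical
  set w : ℤ := ∑ i, |b i| + 1 with hw
  have hwb : ∀ i, 0 < D i * w + b i := by
    intro i
    have h1 : |b i| ≤ ∑ i, |b i| := Finset.single_le_sum (f := fun i => |b i|) (fun _ _ => abs_nonneg _)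
      (mem_univ i)
    have h2 := neg_abs_le (b i)
    have h3 := hD i
    have h4 : 0 ≤ w := by
      have := abs_nonneg (b i)
      linarith
    nlinarith
  obtain ⟨i, hi, j, hj, hij, h⟩ := forms_pos hEF hLS D (fun i => D i * w + b i) hD hwb
    (by
      intro i j hij h
      apply hne i j hij
      linear_combination h)
    S hS
    (by
      intro p hp
      obtain ⟨n, hn⟩ := hadm p hp
      refine ⟨n - w, fun i hi hd => hn i hi ?_⟩
      have h3 : D i * (n - w) + (D i * w + b i) = D i * n + b i := by ring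
      rwa [h3] at hd)
  refine ⟨i, hi, j, hj, hij, h.mono fun x hx => hx.trans ?_⟩
  refine Nat.cast_le.2 (Set.ncard_le_ncard ?_ (consec_finite _ _ _ _ _))
  rintro q ⟨hq1, hq2, n, h1, ⟨p, hp, h2⟩, h3⟩
  refine ⟨hq1, hq2, n + w, by linear_combination h1, ⟨p, hp, by linear_combination h2⟩, ?_⟩
  intro k hk1 hk2 h4
  apply h3 k hk1 hk2
  have h5 : D k * n + (D k * w + b k) = D k * (n + w) + b k := by ring
  show (D k * n + (D k * w + b k)).natAbs.Prime
  rw [h5]
  exact h4

/-- a primitive form and a prime larger than the number of forms -/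
theorem avoid_large {m : ℕ} (D b : Fin m → ℤ) (S : Finset (Fin m)) {p : ℕ} (hp : p.Prime) (hpS : S.card < p)
    (hprim : ∀ i ∈ S, ¬ ((p : ℤ) ∣ D i ∧ (p : ℤ) ∣ b i)) :
    ∃ n : ℤ, ∀ i ∈ S, ¬ (p : ℤ) ∣ D i * n + b i := by
  classical
  have hpp := Nat.prime_iff_prime_int.1 hp
  by_contra hcon
  push Not at hcon
  choose f hf1 hf2 using hcon
  have h1 : ((Finset.range p).image (fun c : ℕ => f c)).card ≤ S.card :=
    Finset.card_le_card (by
      intro a ha
      obtain ⟨c, -, rfl⟩ := Finset.mem_image.1 ha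
      exact hf1 c)
  rw [Finset.card_image_of_injOn, Finset.card_range] at h1
  · omega
  · intro c hc c' hc' hcc
    have h5 : f (c : ℤ) = f (c' : ℤ) := hcc
    have h3 := hf2 (c : ℤ)
    have h4 := hf2 (c' : ℤ)
    rw [h5] at h3
    have h6 := dvd_sub h3 h4
    have h7 : D (f (c' : ℤ)) * (c : ℤ) + b (f (c' : ℤ)) - (D (f (c' : ℤ)) * (c' : ℤ) + b (f (c' : ℤ))) =
        D (f (c' : ℤ)) * ((c : ℤ) - c') := by ring
    rw [h7] at h6
    rw [Finset.coe_range, Set.mem_Iio] at hc hc'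
    rcases hpp.dvd_or_dvd h6 with h8 | h8
    · exfalso
      exact hprim _ (hf1 _) ⟨h8, (dvd_add_right (Dvd.dvd.mul_right h8 _)).1 h4⟩
    · have h9 : (c' : ℤ) ≡ c [ZMOD p] := Int.modEq_iff_dvd.2 h8
      exact (Nat.ModEq.eq_of_lt_of_lt ((Int.natCast_modEq_iff).1 h9) hc' hc).symm

/-- non-proportional primitive forms -/
theorem nonprop {D D' b b' : ℤ} (hD : 1 ≤ D) (hD' : 1 ≤ D') (h : IsCoprime D b) (h' : IsCoprime D' b')
    (hne : (D, b) ≠ (D', b')) : D * b' ≠ D' * b := by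
  intro heq
  apply hne
  have h3 : D ∣ D' := h.dvd_of_dvd_mul_right (Dvd.intro _ heq)
  have h4 : D' ∣ D := h'.dvd_of_dvd_mul_right (Dvd.intro _ heq.symm)
  have h5 : D = D' := Int.dvd_antisymm (by omega) (by omega) h3 h4
  subst h5
  have h6 : b' = b := mul_left_cancel₀ (by omega) heq
  rw [h6]

end Pool.Agent.Helper245.G45
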