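import Pool.Agent.Y876.FF.Fin
import Pool.Agent.Helper245.G45.Core

/-!
# The theorem on 45 linear forms (starting library) in the form used here
-/

set_option autoImplicit false

open Filter Finset

namespace Pool.Agent.Helper245.G45

theorem ef : EF (Pool.Agent.Y876.FF.CC 45 + 3) := by
  intro ι _ a b ha hne S hS hloc
  obtain ⟨T, h1, h2, h3⟩ :=
    (Pool.Agent.Y876.FF.exact_forms Pool.Agent.Y876.FF.lh45 a b ha hne S hS hloc).2
  exact ⟨T, h1, h2, h3⟩

theorem ls : LS := fun ν w hν hw C => Pool.Agent.Y876.HS.log_shift ν w hν hw C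

/-- the exponent of the logarithm -/
def BB : ℕ := Pool.Agent.Y876.FF.CC 45 + 3 + 1

end Pool.Agent.Helper245.G45
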