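import Pool.Agent.Helper245.G45.Apply

/-!
# Explicit sets of 45 natural numbers
-/

set_option autoImplicit false
set_option maxRecDepth 20000

open Finset

namespace Pool.Agent.Helper245.G45

def E106 : Finset ℕ := {0, 1, 3, 4, 6, 9, 10, 13, 15, 16, 18, 21, 24, 25, 28, 31, 34, 36, 39, 43, 45, 48, 49, 51, 55,
  58, 60, 64, 66, 69, 70, 73, 76, 78, 79, 81, 88, 90, 91, 93, 94, 99, 100, 105, 106}

theorem E106_card : E106.card = 45 := by decide

theorem E106_le : ∀ e ∈ E106, e ≤ 106 := by decide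

theorem E106_cls (p : ℕ) (hp : p.Prime) (h43 : p ≤ 43) :
    p ∣ 2 ∨ ∃ c : ℕ, ∀ e ∈ E106, ¬ e % p = c % p := by
  have key : ∀ c : ℕ, (∀ e ∈ E106, ¬ e % p = c % p) → ∃ c : ℕ, ∀ e ∈ E106, ¬ e % p = c % p :=
    fun c h => ⟨c, h⟩
  have h2 := hp.two_le
  interval_cases p <;> first
    | exact absurd hp (by decide)
    | exact Or.inl (by decide)
    | exact Or.inr (key 2 (by decide))
    | exact Or.inr (key 5 (by decide))
    | exact Or.inr (key 7 (by decide))
    | exact Or.inr (key 8 (by decide))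
    | exact Or.inr (key 11 (by decide))
    | exact Or.inr (key 12 (by decide))
    | exact Or.inr (key 17 (by decide))
    | exact Or.inr (key 22 (by decide))

def E73 : Finset ℕ := {0, 1, 2, 3, 5, 7, 8, 11, 12, 15, 16, 17, 18, 21, 22, 25, 26, 28, 30, 32, 33, 35, 37, 38, 40, 43,
  45, 46, 47, 50, 51, 52, 56, 57, 58, 60, 63, 65, 66, 67, 68, 70, 71, 72, 73}

theorem E73_card : E73.card = 45 := by decide

theorem E73_le : ∀ e ∈ E73, e ≤ 73 := by decide

theorem E73_cls (p : ℕ) (hp : p.Prime) (h43 : p ≤ 43) :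
    p ∣ 6 ∨ ∃ c : ℕ, ∀ e ∈ E73, ¬ e % p = c % p := by
  have key : ∀ c : ℕ, (∀ e ∈ E73, ¬ e % p = c % p) → ∃ c : ℕ, ∀ e ∈ E73, ¬ e % p = c % p :=
    fun c h => ⟨c, h⟩
  have h2 := hp.two_le
  interval_cases p <;> first
    | exact absurd hp (by decide)
    | exact Or.inl (by decide)
    | exact Or.inr (key 4 (by decide))
    | exact Or.inr (key 6 (by decide))
    | exact Or.inr (key 9 (by decide))
    | exact Or.inr (key 10 (by decide))
    | exact Or.inr (key 13 (by decide))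
    | exact Or.inr (key 19 (by decide))

def E61 : Finset ℕ := {0, 2, 3, 4, 5, 6, 7, 9, 11, 13, 14, 16, 17, 18, 19, 20, 24, 25, 26, 27, 28, 30, 33, 34, 35, 37,
  38, 39, 40, 41, 42, 44, 45, 46, 47, 48, 51, 52, 53, 55, 56, 58, 59, 60, 61}

theorem E61_card : E61.card = 45 := by decide

theorem E61_le : ∀ e ∈ E61, e ≤ 61 := by decide

theorem E61_cls (p : ℕ) (hp : p.Prime) (h43 : p ≤ 43) :
    p ∣ 30 ∨ ∃ c : ℕ, ∀ e ∈ E61, ¬ e % p = c % p := by
  have key : ∀ c : ℕ, (∀ e ∈ E61, ¬ e % p = c % p) → ∃ c : ℕ, ∀ e ∈ E61, ¬ e % p = c % p :=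
    fun c h => ⟨c, h⟩
  have h2 := hp.two_le
  interval_cases p <;> first
    | exact absurd hp (by decide)
    | exact Or.inl (by decide)
    | exact Or.inr (key 1 (by decide))
    | exact Or.inr (key 8 (by decide))
    | exact Or.inr (key 10 (by decide))
    | exact Or.inr (key 12 (by decide))
    | exact Or.inr (key 15 (by decide))
    | exact Or.inr (key 21 (by decide))

def E54 : Finset ℕ := {0, 1, 2, 5, 6, 7, 8, 9, 10, 11, 12, 15, 16, 18, 19, 20, 21, 22, 23, 24, 26, 27, 28, 29, 31, 32,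
  33, 34, 35, 37, 38, 39, 40, 41, 42, 44, 45, 46, 48, 49, 50, 51, 52, 53, 54}

theorem E54_card : E54.card = 45 := by decide

theorem E54_le : ∀ e ∈ E54, e ≤ 54 := by decide

theorem E54_cls (p : ℕ) (hp : p.Prime) (h43 : p ≤ 43) :
    p ∣ 210 ∨ ∃ c : ℕ, ∀ e ∈ E54, ¬ e % p = c % p := by
  have key : ∀ c : ℕ, (∀ e ∈ E54, ¬ e % p = c % p) → ∃ c : ℕ, ∀ e ∈ E54, ¬ e % p = c % p :=
    fun c h => ⟨c, h⟩
  have h2 := hp.two_le
  interval_cases p <;> first
    | exact absurd hp (by decide)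
    | exact Or.inl (by decide)
    | exact Or.inr (key 3 (by decide))
    | exact Or.inr (key 4 (by decide))
    | exact Or.inr (key 13 (by decide))
    | exact Or.inr (key 14 (by decide))
    | exact Or.inr (key 17 (by decide))
    | exact Or.inr (key 25 (by decide))

def E51 : Finset ℕ := {0, 1, 2, 3, 4, 5, 7, 8, 9, 11, 12, 13, 14, 15, 16, 18, 19, 20, 21, 22, 24, 25, 26, 27, 28, 29,
  30, 31, 32, 33, 34, 35, 37, 38, 39, 41, 42, 43, 44, 45, 46, 47, 48, 50, 51}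

theorem E51_card : E51.card = 45 := by decide

theorem E51_le : ∀ e ∈ E51, e ≤ 51 := by decide

theorem E51_cls (p : ℕ) (hp : p.Prime) (h43 : p ≤ 43) :
    p ∣ 2310 ∨ ∃ c : ℕ, ∀ e ∈ E51, ¬ e % p = c % p := by
  have key : ∀ c : ℕ, (∀ e ∈ E51, ¬ e % p = c % p) → ∃ c : ℕ, ∀ e ∈ E51, ¬ e % p = c % p :=
    fun c h => ⟨c, h⟩
  have h2 := hp.two_le
  interval_cases p <;> first
    | exact absurd hp (by decide)
    | exact Or.inl (by decide)
    | exact Or.inr (key 6 (by decide))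
    | exact Or.inr (key 10 (by decide))
    | exact Or.inr (key 17 (by decide))
    | exact Or.inr (key 23 (by decide))

def E49 : Finset ℕ := {0, 1, 2, 3, 4, 5, 6, 7, 8, 9, 11, 12, 13, 15, 17, 18, 19, 20, 21, 22, 23, 24, 25, 26, 28, 29,
  30, 31, 32, 34, 35, 36, 37, 38, 39, 40, 41, 42, 43, 44, 45, 46, 47, 48, 49}

theorem E49_card : E49.card = 45 := by decide

theorem E49_le : ∀ e ∈ E49, e ≤ 49 := by decide

theorem E49_cls (p : ℕ) (hp : p.Prime) (h43 : p ≤ 43) :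
    p ∣ 30030 ∨ ∃ c : ℕ, ∀ e ∈ E49, ¬ e % p = c % p := by
  have key : ∀ c : ℕ, (∀ e ∈ E49, ¬ e % p = c % p) → ∃ c : ℕ, ∀ e ∈ E49, ¬ e % p = c % p :=
    fun c h => ⟨c, h⟩
  have h2 := hp.two_le
  interval_cases p <;> first
    | exact absurd hp (by decide)
    | exact Or.inl (by decide)
    | exact Or.inr (key 10 (by decide))
    | exact Or.inr (key 14 (by decide))
    | exact Or.inr (key 16 (by decide))
    | exact Or.inr (key 27 (by decide))

def E48 : Finset ℕ := {0, 1, 2, 3, 4, 5, 6, 7, 8, 9, 10, 11, 12, 13, 15, 16, 17, 18, 19, 20, 21, 22, 23, 25, 26, 27,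
  28, 29, 30, 31, 32, 34, 35, 36, 38, 39, 40, 41, 42, 43, 44, 45, 46, 47, 48}

theorem E48_card : E48.card = 45 := by decide

theorem E48_le : ∀ e ∈ E48, e ≤ 48 := by decide

theorem E48_cls (p : ℕ) (hp : p.Prime) (h43 : p ≤ 43) :
    p ∣ 510510 ∨ ∃ c : ℕ, ∀ e ∈ E48, ¬ e % p = c % p := by
  have key : ∀ c : ℕ, (∀ e ∈ E48, ¬ e % p = c % p) → ∃ c : ℕ, ∀ e ∈ E48, ¬ e % p = c % p :=
    fun c h => ⟨c, h⟩
  have h2 := hp.two_le
  interval_cases p <;> first
    | exact absurd hp (by decide)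
    | exact Or.inl (by decide)
    | exact Or.inr (key 14 (by decide))
    | exact Or.inr (key 24 (by decide))

def E46 : Finset ℕ := {0, 1, 2, 4, 5, 6, 7, 8, 9, 10, 11, 12, 13, 14, 15, 16, 17, 18, 19, 20, 21, 22, 23, 24, 25, 27,
  28, 29, 30, 31, 32, 33, 34, 35, 36, 37, 38, 39, 40, 41, 42, 43, 44, 45, 46}

theorem E46_card : E46.card = 45 := by decide

theorem E46_le : ∀ e ∈ E46, e ≤ 46 := by decide

theorem E46_cls (p : ℕ) (hp : p.Prime) (h43 : p ≤ 43) :
    p ∣ 9699690 ∨ ∃ c : ℕ, ∀ e ∈ E46, ¬ e % p = c % p := by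
  have key : ∀ c : ℕ, (∀ e ∈ E46, ¬ e % p = c % p) → ∃ c : ℕ, ∀ e ∈ E46, ¬ e % p = c % p :=
    fun c h => ⟨c, h⟩
  have h2 := hp.two_le
  interval_cases p <;> first
    | exact absurd hp (by decide)
    | exact Or.inl (by decide)
    | exact Or.inr (key 3 (by decide))
    | exact Or.inr (key 26 (by decide))

def E45 : Finset ℕ := {0, 1, 2, 3, 4, 5, 6, 7, 8, 9, 10, 11, 12, 13, 14, 15, 16, 17, 18, 19, 20, 21, 22, 23, 24, 25,
  26, 28, 29, 30, 31, 32, 33, 34, 35, 36, 37, 38, 39, 40, 41, 42, 43, 44, 45}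

theorem E45_card : E45.card = 45 := by decide

theorem E45_le : ∀ e ∈ E45, e ≤ 45 := by decide

theorem E45_cls (p : ℕ) (hp : p.Prime) (h43 : p ≤ 43) :
    p ∣ 223092870 ∨ ∃ c : ℕ, ∀ e ∈ E45, ¬ e % p = c % p := by
  have key : ∀ c : ℕ, (∀ e ∈ E45, ¬ e % p = c % p) → ∃ c : ℕ, ∀ e ∈ E45, ¬ e % p = c % p :=
    fun c h => ⟨c, h⟩
  have h2 := hp.two_le
  interval_cases p <;> first
    | exact absurd hp (by decide)
    | exact Or.inl (by decide)
    | exact Or.inr (key 27 (by decide))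

/-- the product of the primes up to `43` -/
def P43 : ℕ := 13082761331670030

theorem P43_cls (p : ℕ) (hp : p.Prime) (h43 : p ≤ 43) :
    p ∣ P43 ∨ ∃ c : ℕ, ∀ e ∈ range 45, ¬ e % p = c % p := by
  left
  have h2 := hp.two_le
  unfold P43
  interval_cases p <;> first
    | exact absurd hp (by decide)
    | decide

end Pool.Agent.Helper245.G45
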