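import Pool.Agent.Helper245.G45.AnyForms
import Pool.Agent.Helper245.G45.Sets

/-!
# Iterates of `x ↦ a + d x`

The elementary lemmas on iterates are those of the starting file `Pool.Agent.W25.IT.Basic` (copied, since
that file has many imports). helper245.
-/

set_option autoImplicit false

namespace Pool.Agent.Helper245.G45.It

open Finset Filter Pool.Agent.Helper245.G45

/-- the constant coefficient of the `j`-th iterate of `x ↦ a + d x` -/
def itc (a d : ℤ) (j : ℕ) : ℤ := a * ∑ i ∈ range j, d ^ i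

theorem itc_zero (a d : ℤ) : itc a d 0 = 0 := by simp [itc]

theorem itc_succ (a d : ℤ) (j : ℕ) : itc a d (j + 1) = a + d * itc a d j := by
  unfold itc
  rw [Finset.sum_range_succ']
  simp only [pow_zero, pow_succ]
  rw [← Finset.sum_mul]
  ring

theorem itc_add (a d : ℤ) (i j : ℕ) : itc a d (i + j) = itc a d i + d ^ i * itc a d j := by
  unfold itc
  rw [Finset.sum_range_add]
  simp only [pow_add]
  rw [← Finset.mul_sum]
  ring

theorem itc_sub (a d : ℤ) {i j : ℕ} (h : i ≤ j) :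
    itc a d j - d ^ (j - i) * itc a d i = itc a d (j - i) := by
  have h1 := itc_add a d (j - i) i
  rw [Nat.sub_add_cancel h] at h1
  rw [h1]
  ring

theorem itc_mul (a d : ℤ) (j : ℕ) : (d - 1) * itc a d j = a * (d ^ j - 1) := by
  unfold itc
  have := mul_geom_sum d j
  linear_combination a * this

/-- a value of the `j`-th iterate -/
theorem itc_val (a d n : ℤ) (j : ℕ) :
    (d - 1) * (d ^ j * n + itc a d j) + a = d ^ j * ((d - 1) * n + a) := by
  have := itc_mul a d j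
  linear_combination this

theorem itc_dvd_of_dvd_a {p a d : ℤ} (h : p ∣ a) (j : ℕ) : p ∣ itc a d j := Dvd.dvd.mul_right h _

theorem itc_mod_d {p a d : ℤ} (h : p ∣ d) {j : ℕ} (hj : 1 ≤ j) : p ∣ itc a d j - a := by
  obtain ⟨i, rfl⟩ : ∃ i, j = i + 1 := ⟨j - 1, by omega⟩
  rw [itc_succ]
  have : a + d * itc a d i - a = d * itc a d i := by ring
  rw [this]
  exact Dvd.dvd.mul_right h _

theorem pow_sub_one_dvd {p d : ℤ} (h : p ∣ d - 1) (j : ℕ) : p ∣ d ^ j - 1 :=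
  h.trans (sub_one_dvd_pow_sub_one_aux d j)
where
  sub_one_dvd_pow_sub_one_aux (d : ℤ) (j : ℕ) : d - 1 ∣ d ^ j - 1 := by
    have := sub_dvd_pow_sub_pow d 1 j
    simpa using this

theorem itc_mod_d_sub_one {p a d : ℤ} (h : p ∣ d - 1) (j : ℕ) : p ∣ itc a d j - j * a := by
  induction j with
  | zero => simp [itc_zero]
  | succ j ih =>
    rw [itc_succ]
    push_cast
    have : a + d * itc a d j - (j + 1) * a = (itc a d j - j * a) + (d - 1) * itc a d j := by ring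
    rw [this]
    exact dvd_add ih (Dvd.dvd.mul_right h _)

theorem itc_coprime {a d : ℤ} (h : Int.gcd a d = 1) {j : ℕ} {p : ℕ} (hp : p.Prime)
    (h1 : (p : ℤ) ∣ d ^ j) (h2 : (p : ℤ) ∣ itc a d j) : False := by
  have hpp := Nat.prime_iff_prime_int.1 hp
  have hd : (p : ℤ) ∣ d := hpp.dvd_of_dvd_pow h1
  have hj : 1 ≤ j := by
    by_contra hj
    have : j = 0 := by omega
    subst this
    rw [pow_zero] at h1
    exact hpp.not_isUnit (isUnit_of_dvd_one h1)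
  have ha : (p : ℤ) ∣ a := by
    have h3 := dvd_sub h2 (itc_mod_d (a := a) hd hj)
    rwa [sub_sub_cancel] at h3
  have h4 := (Int.isCoprime_iff_gcd_eq_one.2 h).isUnit_of_dvd' ha hd
  exact hpp.not_isUnit h4

theorem itc_inj {a d : ℤ} (hd : 1 ≤ d) (ha : a ≠ 0) {i j : ℕ} (h1 : d ^ i = d ^ j)
    (h2 : itc a d i = itc a d j) : i = j := by
  rcases hd.eq_or_lt with h | h
  · subst h
    unfold itc at h2
    simp only [one_pow, sum_const, card_range, nsmul_eq_mul, mul_one] at h2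
    have := mul_left_cancel₀ ha h2
    exact_mod_cast this
  · have : Function.Injective (fun n : ℕ => d ^ n) := pow_right_injective₀ (by omega) (by omega)
    exact this h1

/-- the iterates have no fixed prime divisor, if the exponents miss a class modulo the bad primes -/
theorem iter_admissible {ι : Type*} {a d : ℤ} (h : Int.gcd a d = 1) (h2 : 2 ∣ a * d) (e : ι → ℕ)
    {p : ℕ} (hp : p.Prime)
    (hE : 3 ≤ p → (p : ℤ) ∣ d - 1 → ¬ (p : ℤ) ∣ a → ∃ n : ℤ, ∀ i, ¬ (p : ℤ) ∣ d ^ e i * n + itc a d (e i)) :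
    ∃ n : ℤ, ∀ i, ¬ (p : ℤ) ∣ d ^ e i * n + itc a d (e i) := by
  have hpp := Nat.prime_iff_prime_int.1 hp
  have hcop := Int.isCoprime_iff_gcd_eq_one.2 h
  by_cases hpa : (p : ℤ) ∣ a
  · have hpd : ¬ (p : ℤ) ∣ d := fun hd => hpp.not_isUnit (hcop.isUnit_of_dvd' hpa hd)
    refine ⟨1, fun i hi => hpd ?_⟩
    have h3 := (dvd_add_left (itc_dvd_of_dvd_a (d := d) hpa (e i))).1 hi
    rw [mul_one] at h3
    exact hpp.dvd_of_dvd_pow h3
  by_cases hpd : (p : ℤ) ∣ d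
  · refine ⟨1, fun i hi => ?_⟩
    rcases Nat.eq_zero_or_pos (e i) with h0 | h0
    · rw [h0, pow_zero, itc_zero, one_mul, add_zero] at hi
      exact hpp.not_isUnit (isUnit_of_dvd_one hi)
    · apply hpa
      have h3 := itc_mod_d (a := a) hpd h0
      have h4 : (p : ℤ) ∣ d ^ e i * 1 := by
        rw [mul_one]
        exact hpd.trans (dvd_pow_self d (by omega))
      have h5 := (dvd_add_right h4).1 hi
      have h6 := dvd_sub h5 h3
      rwa [sub_sub_cancel] at h6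
  by_cases hp1 : (p : ℤ) ∣ d - 1
  · apply hE _ hp1 hpa
    have h3 := hp.two_le
    by_contra hlt
    have hp2 : p = 2 := by omega
    subst hp2
    have h4 : (2 : ℤ) ∣ a * d := h2
    rcases Int.prime_two.dvd_or_dvd h4 with h5 | h5
    · exact hpa (by exact_mod_cast h5)
    · exact hpd (by exact_mod_cast h5)
  · -- the fixed point modulo `p`
    have hc : IsCoprime (d - 1) (p : ℤ) := by
      refine (Int.isCoprime_iff_gcd_eq_one.2 ?_)
      by_contra hne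
      obtain ⟨r, hr, hrd⟩ := Nat.exists_prime_and_dvd hne
      have h3 : (r : ℤ) ∣ (Int.gcd (d - 1) p : ℤ) := Int.natCast_dvd_natCast.2 hrd
      have h4 : r = p := (Nat.prime_dvd_prime_iff_eq hr hp).1
        (Int.natCast_dvd_natCast.1 (h3.trans (Int.gcd_dvd_right _ _)))
      apply hp1
      rw [← h4]
      exact h3.trans (Int.gcd_dvd_left _ _)
    obtain ⟨u, v, huv⟩ := hc
    refine ⟨-a * u, fun i hi => hpa ?_⟩
    have h3 := itc_val a d (-a * u) (e i)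
    have h4 : (d - 1) * (-a * u) + a = p * (a * v) := by linear_combination -a * huv
    rw [h4] at h3
    have h5 : (p : ℤ) ∣ (d - 1) * (d ^ e i * (-a * u) + itc a d (e i)) + a := by
      rw [h3]
      exact ⟨d ^ e i * (a * v), by ring⟩
    exact (dvd_add_right (Dvd.dvd.mul_left hi _)).1 h5

/-- exponents missing a class -/
theorem iter_miss {ι : Type*} {a d : ℤ} (e : ι → ℕ) {p : ℕ} (hp : p.Prime)
    (hp1 : (p : ℤ) ∣ d - 1) (hpa : ¬ (p : ℤ) ∣ a) (r : ℕ) (hr : ∀ i, ¬ e i ≡ r [MOD p]) :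
    ∃ n : ℤ, ∀ i, ¬ (p : ℤ) ∣ d ^ e i * n + itc a d (e i) := by
  have hpp := Nat.prime_iff_prime_int.1 hp
  refine ⟨-(r * a), fun i hi => ?_⟩
  have h1 := itc_mod_d_sub_one (a := a) hp1 (e i)
  have h2 := pow_sub_one_dvd hp1 (e i)
  have h3 : (p : ℤ) ∣ ((e i : ℤ) - r) * a := by
    have h4 : ((e i : ℤ) - r) * a = (d ^ e i * (-(r * a)) + itc a d (e i)) -
        (itc a d (e i) - e i * a) + (d ^ e i - 1) * (r * a) := by ring
    rw [h4]
    exact dvd_add (dvd_sub hi h1) (Dvd.dvd.mul_right h2 _)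
  rcases hpp.dvd_or_dvd h3 with h4 | h4
  · apply hr i
    have h5 : (r : ℤ) ≡ e i [ZMOD p] := Int.modEq_iff_dvd.2 h4
    exact ((Int.natCast_modEq_iff).1 h5).symm
  · exact hpa h4

theorem iterate_eq (a d y : ℤ) (t : ℕ) : (fun y : ℤ => a + d * y)^[t] y = d ^ t * y + itc a d t := by
  induction t with
  | zero => simp [itc_zero]
  | succ t ih =>
    rw [Function.iterate_succ_apply', ih, itc_succ]
    ring

/-- the primes `q ≤ x` for which the `j`-th iterate of `y ↦ a + d y` at `q` is a prime and the earlier ones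
(after the `0`-th) are not, up to sign -/
def orb (a d : ℤ) (j : ℕ) (x : ℝ) : Set ℕ :=
  {q : ℕ | (q : ℝ) ≤ x ∧ q.Prime ∧ (∃ p : ℕ, p.Prime ∧ (fun y : ℤ => a + d * y)^[j] (q : ℤ) = p) ∧
    ∀ t, 0 < t → t < j → ¬ ((fun y : ℤ => a + d * y)^[t] (q : ℤ)).natAbs.Prime}

theorem orb_finite (a d : ℤ) (j : ℕ) (x : ℝ) : (orb a d j x).Finite := by
  apply (Set.finite_Iic ⌊x⌋₊).subset
  rintro q ⟨hq, -⟩
  exact Nat.le_floor hq

theorem iter_gen {C : ℕ} (hEF : EF C) (hLS : LS) (a d : ℤ) (hd : 1 ≤ d) (hg : Int.gcd a d = 1)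
    (h2 : 2 ∣ a * d) (ha : a ≠ 0) (E : Finset ℕ) (L : List ℕ) (hL : ∀ p ∈ L, p.Prime)
    (hcls : ∀ p : ℕ, p.Prime → 3 ≤ p → p ≤ 43 → p ∈ L ∨ ((p : ℤ) ∣ d - 1 → ¬ (p : ℤ) ∣ a →
      ∃ r : ℕ, ∀ e ∈ E, ¬ e ≡ r [MOD p]))
    (hE : 45 ≤ left L E.card) :
    ∃ e ∈ E, ∃ e' ∈ E, e < e' ∧ ∃ᶠ x : ℝ in atTop,
      x / Real.log x ^ (C + 1) ≤ ((orb a d (e' - e) x).ncard : ℝ) := by
  classical
  have hlt : ∀ e ∈ E, e < E.sup id + 1 := fun e he => Nat.lt_succ_of_le (Finset.le_sup (f := id) he)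
  obtain ⟨m, hm⟩ : ∃ m, m = E.sup id + 1 := ⟨_, rfl⟩
  rw [← hm] at hlt
  obtain ⟨S, hS⟩ : ∃ S : Finset (Fin m), S = univ.filter (fun i : Fin m => (i : ℕ) ∈ E) := ⟨_, rfl⟩
  have hSE : S.map Fin.valEmbedding = E := by
    ext e
    rw [hS]
    simp only [Finset.mem_map, mem_filter, mem_univ, true_and, Fin.valEmbedding_apply]
    constructor
    · rintro ⟨i, hi, rfl⟩
      exact hi
    · intro he
      exact ⟨⟨e, hlt e he⟩, he, rfl⟩
  have hScard : S.card = E.card := by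
    rw [← hSE, Finset.card_map]
  have hmem : ∀ i ∈ S, (i : ℕ) ∈ E := by
    intro i hi
    rw [hS, mem_filter] at hi
    exact hi.2
  have hprim : ∀ i : Fin m, ∀ p : ℕ, p.Prime → ¬ ((p : ℤ) ∣ d ^ (i : ℕ) ∧ (p : ℤ) ∣ itc a d i) := by
    rintro i p hp ⟨h3, h4⟩
    exact itc_coprime hg hp h3 h4
  obtain ⟨i, hi, j, hj, hij, h⟩ := any_forms hEF hLS (fun i : Fin m => d ^ (i : ℕ))
    (fun i : Fin m => itc a d i) (fun i => one_le_pow₀ hd) hprim
    (by
      intro i j hij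
      apply nonprop (one_le_pow₀ hd) (one_le_pow₀ hd) (coprime_of_prim (hprim i)) (coprime_of_prim (hprim j))
      intro heq
      rw [Prod.mk.injEq] at heq
      exact hij (Fin.ext (itc_inj hd ha heq.1 heq.2)))
    S L hL
    (by
      intro p hp h43
      by_cases hpL : p ∈ L
      · exact Or.inl hpL
      right
      obtain ⟨n, hn⟩ := iter_admissible (ι := S) hg h2 (fun i => ((i : Fin m) : ℕ)) hp (by
          intro h3 hp1 hpa
          obtain ⟨r, hr⟩ := (hcls p hp h3 h43).resolve_left hpL hp1 hpa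
          exact iter_miss _ hp hp1 hpa r (fun i => hr _ (hmem _ i.2)))
      exact ⟨n, fun i hi => hn ⟨i, hi⟩⟩)
    (by rw [hScard]; exact hE)
  refine ⟨i, hmem i hi, j, hmem j hj, hij, h.mono fun x hx => hx.trans ?_⟩
  refine Nat.cast_le.2 (Set.ncard_le_ncard ?_ (orb_finite _ _ _ _))
  have hij' : (i : ℕ) < j := hij
  have key : ∀ (n : ℤ) (q : ℕ) (t : ℕ), d ^ (i : ℕ) * n + itc a d i = q →
      (fun y : ℤ => a + d * y)^[t] (q : ℤ) = d ^ ((i : ℕ) + t) * n + itc a d (i + t) := by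
    intro n q t hq
    rw [iterate_eq, ← hq, add_comm (i : ℕ) t, itc_add, pow_add]
    ring
  rintro q ⟨hq1, hq2, n, h3, ⟨p, hp, h4⟩, h5⟩
  refine ⟨hq1, hq2, ⟨p, hp, ?_⟩, ?_⟩
  · rw [key n q _ h3, ← h4]
    have h6 : (i : ℕ) + (j - i) = j := by omega
    rw [h6]
  · intro t ht0 ht1
    have h6 : (i : ℕ) + t < m := by have := j.2; omega
    have h7 := h5 ⟨(i : ℕ) + t, h6⟩ (by rw [Fin.lt_def]; simp; omega) (by rw [Fin.lt_def]; simp; omega)
    rw [key n q t h3]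
    exact h7

/-- no odd prime up to `k` divides `d - 1` without dividing `a` -/
def Ok (k : ℕ) (a d : ℤ) : Prop := ∀ p : ℕ, p.Prime → 3 ≤ p → p ≤ k → (p : ℤ) ∣ d - 1 → (p : ℤ) ∣ a

theorem iter_first {C : ℕ} (hEF : EF C) (hLS : LS) (a d : ℤ) (hd : 1 ≤ d) (hg : Int.gcd a d = 1)
    (h2 : 2 ∣ a * d) (ha : a ≠ 0) (k K : ℕ) (hk : Ok k a d) (E : Finset ℕ) (hE : E.card = 45)
    (hK : ∀ e ∈ E, e ≤ K) (hcls : ∀ p : ℕ, p.Prime → p ≤ 43 → p ≤ k ∨ ∃ c : ℕ, ∀ e ∈ E, ¬ e % p = c % p) :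
    ∃ j, 1 ≤ j ∧ j ≤ K ∧ ∃ᶠ x : ℝ in atTop,
      x / Real.log x ^ (C + 1) ≤ ((orb a d j x).ncard : ℝ) := by
  obtain ⟨e, he, e', he', hee, h⟩ := iter_gen hEF hLS a d hd hg h2 ha E [] (by simp)
    (by
      intro p hp h3 h43
      right
      intro h4 h5
      rcases hcls p hp h43 with h6 | ⟨c, hc⟩
      · exact absurd (hk p hp h3 h6 h4) h5
      · exact ⟨c, hc⟩)
    (by rw [hE]; exact le_refl _)
  exact ⟨e' - e, by omega, by have := hK e' he'; omega, h⟩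

theorem iter_set {C : ℕ} (hEF : EF C) (hLS : LS) (a d : ℤ) (hd : 1 ≤ d) (hg : Int.gcd a d = 1)
    (h2 : 2 ∣ a * d) (ha : a ≠ 0) (k : ℕ) (hk : Ok k a d) (E : Finset ℕ) (L : List ℕ) (N : ℕ)
    (hL : ∀ p ∈ L, p.Prime) (hLk : ∀ p : ℕ, p.Prime → 3 ≤ p → p ≤ 43 → p ≤ k ∨ p ∈ L)
    (hN : left L N = 45) (hE : N ≤ E.card) :
    ∃ e ∈ E, ∃ e' ∈ E, e < e' ∧ ∃ᶠ x : ℝ in atTop,
      x / Real.log x ^ (C + 1) ≤ ((orb a d (e' - e) x).ncard : ℝ) :=
  iter_gen hEF hLS a d hd hg h2 ha E L hL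
    (by
      intro p hp h3 h43
      rcases hLk p hp h3 h43 with h6 | h6
      · exact Or.inr fun h4 h5 => absurd (hk p hp h3 h6 h4) h5
      · exact Or.inl h6)
    (by rw [← hN]; exact left_mono L hE)

/-- the pairs of the question -/
theorem pair_gcd {a d : ℤ} (h : Int.gcd a d = 1) (j : ℕ) : Int.gcd (a * ∑ i ∈ range j, d ^ i) (d ^ j) = 1 := by
  by_contra hne
  obtain ⟨r, hr, hrd⟩ := Nat.exists_prime_and_dvd hne
  have h3 : (r : ℤ) ∣ (Int.gcd (a * ∑ i ∈ range j, d ^ i) (d ^ j) : ℤ) := Int.natCast_dvd_natCast.2 hrd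
  exact itc_coprime h hr (h3.trans (Int.gcd_dvd_right _ _)) (h3.trans (Int.gcd_dvd_left _ _))

theorem pair_two {a d : ℤ} (h : 2 ∣ a * d) {j : ℕ} (hj : 1 ≤ j) : 2 ∣ (a * ∑ i ∈ range j, d ^ i) * d ^ j := by
  rcases Int.prime_two.dvd_or_dvd h with h5 | h5
  · exact Dvd.dvd.mul_right (Dvd.dvd.mul_right h5 _) _
  · exact Dvd.dvd.mul_left (dvd_pow h5 (by omega)) _

end Pool.Agent.Helper245.G45.It
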