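import Pool.Agent.Helper245.G45.AnyForms
import Pool.Agent.Helper245.G45.Sets

/-!
# Iterates of the rational map `x ↦ (b x + c) / a`

The elementary lemmas are those of the starting file `Pool.Agent.W25.IT.Rat` (copied, since that file has
many imports). helper245.
-/

set_option autoImplicit false

namespace Pool.Agent.Helper245.G45.Ra

open Finset Filter Pool.Agent.Helper245.G45

/-- the right-hand side of the `j`-th iterated equation -/
def cj (a b c : ℤ) (j : ℕ) : ℤ := c * ∑ i ∈ range j, a ^ i * b ^ (j - 1 - i)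

theorem cj_zero (a b c : ℤ) : cj a b c 0 = 0 := by simp [cj]

theorem cj_succ (a b c : ℤ) (j : ℕ) : cj a b c (j + 1) = b * cj a b c j + a ^ j * c := by
  unfold cj
  rw [Finset.sum_range_succ]
  have h1 : ∑ i ∈ range j, a ^ i * b ^ (j + 1 - 1 - i) = b * ∑ i ∈ range j, a ^ i * b ^ (j - 1 - i) := by
    rw [Finset.mul_sum]
    apply Finset.sum_congr rfl
    intro i hi
    have h2 := Finset.mem_range.1 hi
    have h3 : j + 1 - 1 - i = (j - 1 - i) + 1 := by omega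
    rw [h3, pow_succ]
    ring
  rw [h1]
  have h4 : j + 1 - 1 - j = 0 := by omega
  rw [h4, pow_zero]
  ring

theorem cj_pos (a b c : ℤ) (ha : 1 ≤ a) (hb : 1 ≤ b) (hc : c ≠ 0) {j : ℕ} (hj : 1 ≤ j) :
    cj a b c j ≠ 0 := by
  unfold cj
  apply mul_ne_zero hc
  have : 0 < ∑ i ∈ range j, a ^ i * b ^ (j - 1 - i) := by
    apply Finset.sum_pos
    · intro i _; positivity
    · exact ⟨0, Finset.mem_range.2 hj⟩
  exact this.ne'

theorem cj_mod_a {a b c p : ℤ} (hp : p ∣ a) (j : ℕ) : p ∣ cj a b c (j + 1) - b ^ j * c := by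
  induction j with
  | zero => simp [cj]
  | succ j ih =>
    rw [cj_succ]
    have h1 : b * cj a b c (j + 1) + a ^ (j + 1) * c - b ^ (j + 1) * c =
        b * (cj a b c (j + 1) - b ^ j * c) + a * (a ^ j * c) := by ring
    rw [h1]
    exact dvd_add (Dvd.dvd.mul_left ih _) (Dvd.dvd.mul_right hp _)

theorem cj_mod_b {a b c p : ℤ} (hp : p ∣ b) (j : ℕ) : p ∣ cj a b c (j + 1) - a ^ j * c := by
  rw [cj_succ]
  have h1 : b * cj a b c j + a ^ j * c - a ^ j * c = b * cj a b c j := by ring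
  rw [h1]
  exact Dvd.dvd.mul_right hp _

theorem cj_coprime {a b c : ℤ} (hab : IsCoprime a b) (hac : IsCoprime a c) (hbc : IsCoprime b c)
    {j : ℕ} (hj : 1 ≤ j) : IsCoprime (a ^ j) (cj a b c j) ∧ IsCoprime (b ^ j) (cj a b c j) := by
  obtain ⟨i, rfl⟩ : ∃ i, j = i + 1 := ⟨j - 1, by omega⟩
  constructor
  · apply coprime_of_prim
    rintro p hp ⟨h1, h2⟩
    have hpp := Nat.prime_iff_prime_int.1 hp
    have h3 := hpp.dvd_of_dvd_pow h1
    have h4 := dvd_sub h2 (cj_mod_a (b := b) (c := c) h3 i)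
    rw [sub_sub_cancel] at h4
    rcases hpp.dvd_or_dvd h4 with h5 | h5
    · exact hpp.not_isUnit (hab.isUnit_of_dvd' h3 (hpp.dvd_of_dvd_pow h5))
    · exact hpp.not_isUnit (hac.isUnit_of_dvd' h3 h5)
  · apply coprime_of_prim
    rintro p hp ⟨h1, h2⟩
    have hpp := Nat.prime_iff_prime_int.1 hp
    have h3 := hpp.dvd_of_dvd_pow h1
    have h4 := dvd_sub h2 (cj_mod_b (a := a) (c := c) h3 i)
    rw [sub_sub_cancel] at h4
    rcases hpp.dvd_or_dvd h4 with h5 | h5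
    · exact hpp.not_isUnit (hab.isUnit_of_dvd' (hpp.dvd_of_dvd_pow h5) h3)
    · exact hpp.not_isUnit (hbc.isUnit_of_dvd' h3 h5)

theorem cj_parity {a b c : ℤ} (h : ¬ (Odd a ∧ Odd b ∧ Odd c)) {j : ℕ} (hj : 1 ≤ j) :
    ¬ (Odd (a ^ j) ∧ Odd (b ^ j) ∧ Odd (cj a b c j)) := by
  rintro ⟨h1, h2, h3⟩
  have h4 : Odd a := (Int.odd_pow.1 h1).resolve_right (by omega)
  have h5 : Odd b := (Int.odd_pow.1 h2).resolve_right (by omega)
  apply h
  refine ⟨h4, h5, ?_⟩
  unfold cj at h3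
  exact (Int.odd_mul.1 h3).1

/-- integral orbits of any length -/
theorem exists_beta (a b c : ℤ) (ha : a ≠ 0) (hab : IsCoprime a b) (J : ℕ) :
    ∃ β : ℕ → ℤ, ∀ i < J, a * β (i + 1) = b * β i + c := by
  induction J with
  | zero => exact ⟨fun _ => 0, fun i hi => absurd hi (by omega)⟩
  | succ J ih =>
    obtain ⟨β, hβ⟩ := ih
    have hcop : IsCoprime a (b ^ (J + 1)) := hab.pow_right
    obtain ⟨u, v, huv⟩ := hcop
    -- `b (β J + b^J s) + c ≡ 0 mod a`
    set s : ℤ := -(b * β J + c) * v with hs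
    have hdiv : a ∣ b * (β J + b ^ J * s) + c := by
      refine ⟨(b * β J + c) * u, ?_⟩
      rw [hs]
      have h1 : v * b ^ (J + 1) = 1 - u * a := by linarith
      have h2 : b * (β J + b ^ J * (-(b * β J + c) * v)) + c =
          (b * β J + c) - (b * β J + c) * (v * b ^ (J + 1)) := by ring
      rw [h2, h1]
      ring
    obtain ⟨y, hy⟩ := hdiv
    refine ⟨fun i => if i ≤ J then β i + a ^ (J - i) * b ^ i * s else y, fun i hi => ?_⟩
    rcases (Nat.lt_succ_iff.1 hi).eq_or_lt with h1 | h1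
    · subst h1
      simp only [le_refl, if_true, Nat.sub_self, pow_zero, one_mul]
      rw [if_neg (by omega), ← hy]
    · simp only
      rw [if_pos (show i + 1 ≤ J by omega), if_pos (show i ≤ J by omega)]
      have h2 : J - i = (J - (i + 1)) + 1 := by omega
      rw [h2, pow_succ a, pow_succ b]
      linear_combination hβ i h1

/-- the forms -/
def LL (a b : ℤ) (β : ℕ → ℤ) (J : ℕ) (i : ℕ) (n : ℤ) : ℤ := a ^ (J - i) * b ^ i * n + β i

theorem LL_step {a b c : ℤ} {β : ℕ → ℤ} {J : ℕ} (hβ : ∀ i < J, a * β (i + 1) = b * β i + c)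
    (n : ℤ) {i : ℕ} (hi : i < J) : a * LL a b β J (i + 1) n = b * LL a b β J i n + c := by
  unfold LL
  have h2 : J - i = (J - (i + 1)) + 1 := by omega
  rw [h2, pow_succ a, pow_succ b]
  linear_combination hβ i hi

theorem LL_iter {a b c : ℤ} {β : ℕ → ℤ} {J : ℕ} (hβ : ∀ i < J, a * β (i + 1) = b * β i + c)
    (n : ℤ) (i m : ℕ) (h : i + m ≤ J) :
    a ^ m * LL a b β J (i + m) n = b ^ m * LL a b β J i n + cj a b c m := by
  induction m with
  | zero => simp [cj_zero]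
  | succ m ih =>
    have h1 := ih (by omega)
    have h2 := LL_step hβ n (show i + m < J by omega)
    rw [cj_succ, show i + (m + 1) = i + m + 1 by ring, pow_succ a, pow_succ b]
    linear_combination a ^ m * h2 + b * h1

theorem beta_iter {a b c : ℤ} {β : ℕ → ℤ} {J : ℕ} (hβ : ∀ i < J, a * β (i + 1) = b * β i + c)
    (i m : ℕ) (h : i + m ≤ J) : a ^ m * β (i + m) = b ^ m * β i + cj a b c m := by
  have := LL_iter hβ 0 i m h
  simpa [LL] using this

/-- injectivity -/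
theorem forms_inj {a b c : ℤ} (ha : 1 ≤ a) (hb : 1 ≤ b) (hc : c ≠ 0) (hab : IsCoprime a b)
    {β : ℕ → ℤ} {J : ℕ} (hβ : ∀ i < J, a * β (i + 1) = b * β i + c) {i k : ℕ} (hi : i ≤ J) (hk : k ≤ J)
    (h1 : a ^ (J - i) * b ^ i = a ^ (J - k) * b ^ k) (h2 : β i = β k) : i = k := by
  wlog hik : i ≤ k generalizing i k with H
  · exact (H hk hi h1.symm h2.symm (by omega)).symm
  by_contra hne
  have hlt : i < k := by omega
  obtain ⟨m, rfl⟩ : ∃ m, k = i + m := ⟨k - i, by omega⟩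
  have h3 := beta_iter hβ i m hk
  have h4 : a ^ m * (a ^ (J - (i + m)) * b ^ i) = b ^ m * (a ^ (J - (i + m)) * b ^ i) := by
    have e1 : J - i = m + (J - (i + m)) := by omega
    rw [e1, pow_add, pow_add] at h1
    linear_combination h1
  have hpos : (a ^ (J - (i + m)) * b ^ i : ℤ) ≠ 0 := by positivity
  have h5 : a ^ m = b ^ m := mul_right_cancel₀ hpos h4
  rw [← h2, h5] at h3
  have h6 := cj_pos a b c ha hb hc (show 1 ≤ m by omega)
  apply h6
  linarith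

/-- coefficients are coprime in the middle of the orbit -/
theorem forms_cop {a b c : ℤ} (hac : IsCoprime a c) (hbc : IsCoprime b c)
    {β : ℕ → ℤ} {J : ℕ} (hβ : ∀ i < J, a * β (i + 1) = b * β i + c) {i : ℕ} (hi : 1 ≤ i) (hi' : i < J)
    {p : ℕ} (hp : p.Prime) (h1 : (p : ℤ) ∣ a * b) : ¬ (p : ℤ) ∣ β i := by
  have hpp := Nat.prime_iff_prime_int.1 hp
  intro h2
  rcases hpp.dvd_or_dvd h1 with h3 | h3
  · have h4 := hβ i hi'
    have h5 : (p : ℤ) ∣ c := by
      have h6 : c = a * β (i + 1) - b * β i := by linarith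
      rw [h6]
      exact dvd_sub (Dvd.dvd.mul_right h3 _) (Dvd.dvd.mul_left h2 _)
    exact hpp.not_isUnit (hac.isUnit_of_dvd' h3 h5)
  · obtain ⟨k, rfl⟩ : ∃ k, i = k + 1 := ⟨i - 1, by omega⟩
    have h4 := hβ k (by omega)
    have h5 : (p : ℤ) ∣ c := by
      have h6 : c = a * β (k + 1) - b * β k := by linarith
      rw [h6]
      exact dvd_sub (Dvd.dvd.mul_left h2 _) (Dvd.dvd.mul_right h3 _)
    exact hpp.not_isUnit (hbc.isUnit_of_dvd' h3 h5)

/-- the first form takes every value modulo a prime not dividing `a` -/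
theorem hit {a b : ℤ} {β : ℕ → ℤ} {J : ℕ} {p : ℕ} (hp : p.Prime) (hpa : ¬ (p : ℤ) ∣ a) (y : ℤ) :
    ∃ n : ℤ, (p : ℤ) ∣ LL a b β J 0 n - y := by
  have hc : IsCoprime (a ^ J) (p : ℤ) := by
    apply IsCoprime.pow_left
    apply coprime_of_prim
    rintro r hr ⟨h1, h2⟩
    have h3 := (Nat.prime_dvd_prime_iff_eq hr hp).1 (Int.natCast_dvd_natCast.1 h2)
    subst h3
    exact hpa h1
  obtain ⟨u, v, huv⟩ := hc
  refine ⟨(y - β 0) * u, (β 0 - y) * v, ?_⟩
  unfold LL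
  simp only [Nat.sub_zero, pow_zero, mul_one]
  linear_combination (y - β 0) * huv

/-- the forms have no fixed prime divisor, if the exponents miss a class modulo the bad primes -/
theorem rat_admissible {ι : Type*} {a b c : ℤ} (hab : IsCoprime a b) (hac : IsCoprime a c)
    (hbc : IsCoprime b c) (hpar : ¬ (Odd a ∧ Odd b ∧ Odd c)) {β : ℕ → ℤ} {J : ℕ}
    (hβ : ∀ i < J, a * β (i + 1) = b * β i + c) (e : ι → ℕ) (he : ∀ i, 1 ≤ e i ∧ e i < J)
    {p : ℕ} (hp : p.Prime)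
    (hE : 3 ≤ p → (p : ℤ) ∣ a - b → ¬ (p : ℤ) ∣ c →
      ∃ n : ℤ, ∀ i, ¬ (p : ℤ) ∣ a ^ (J - e i) * b ^ e i * n + β (e i)) :
    ∃ n : ℤ, ∀ i, ¬ (p : ℤ) ∣ a ^ (J - e i) * b ^ e i * n + β (e i) := by
  have hpp := Nat.prime_iff_prime_int.1 hp
  by_cases hpab : (p : ℤ) ∣ a * b
  · refine ⟨0, fun i hi => forms_cop hac hbc hβ (he i).1 (he i).2 hp hpab ?_⟩
    simpa using hi
  have hpa : ¬ (p : ℤ) ∣ a := fun h => hpab (Dvd.dvd.mul_right h _)
  have hpb : ¬ (p : ℤ) ∣ b := fun h => hpab (Dvd.dvd.mul_left h _)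
  by_cases hpc : (p : ℤ) ∣ c
  · obtain ⟨n, hn⟩ := hit (b := b) (β := β) (J := J) hp hpa 1
    refine ⟨n, fun i hi => ?_⟩
    have h1 : ∀ k, k ≤ J → ¬ (p : ℤ) ∣ LL a b β J k n := by
      intro k
      induction k with
      | zero =>
        intro _ h
        have := dvd_sub h hn
        rw [sub_sub_cancel] at this
        exact hpp.not_isUnit (isUnit_of_dvd_one this)
      | succ k ih =>
        intro hk h
        have h2 := LL_step hβ n (show k < J by omega)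
        have h3 : (p : ℤ) ∣ b * LL a b β J k n := by
          have h4 : b * LL a b β J k n = a * LL a b β J (k + 1) n - c := by linarith
          rw [h4]
          exact dvd_sub (Dvd.dvd.mul_left h _) hpc
        rcases hpp.dvd_or_dvd h3 with h4 | h4
        · exact hpb h4
        · exact ih (by omega) h4
    exact h1 (e i) (he i).2.le hi
  by_cases hp1 : (p : ℤ) ∣ a - b
  · apply hE _ hp1 hpc
    have h3 := hp.two_le
    by_contra hlt
    have hp2 : p = 2 := by omega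
    subst hp2
    apply hpar
    rw [← Int.not_even_iff_odd, ← Int.not_even_iff_odd, ← Int.not_even_iff_odd]
    refine ⟨fun h => hpa h.two_dvd, fun h => hpb h.two_dvd, fun h => hpc h.two_dvd⟩
  · -- the fixed point modulo `p`
    have hc : IsCoprime (a - b) (p : ℤ) := by
      apply coprime_of_prim
      rintro r hr ⟨h1, h2⟩
      have h3 := (Nat.prime_dvd_prime_iff_eq hr hp).1 (Int.natCast_dvd_natCast.1 h2)
      subst h3
      exact hp1 h1
    obtain ⟨u, v, huv⟩ := hc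
    obtain ⟨n, hn⟩ := hit (b := b) (β := β) (J := J) hp hpa (c * u)
    refine ⟨n, fun i hi => ?_⟩
    have h1 : ∀ k, k ≤ J → (p : ℤ) ∣ (a - b) * LL a b β J k n - c := by
      intro k
      induction k with
      | zero =>
        intro _
        obtain ⟨w, hw⟩ := hn
        refine ⟨(a - b) * w - c * v, ?_⟩
        linear_combination (a - b) * hw + c * huv
      | succ k ih =>
        intro hk
        have h2 := LL_step hβ n (show k < J by omega)
        have h3 := ih (by omega)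
        have h4 : a * ((a - b) * LL a b β J (k + 1) n - c) = b * ((a - b) * LL a b β J k n - c) := by
          linear_combination (a - b) * h2
        have h5 : (p : ℤ) ∣ a * ((a - b) * LL a b β J (k + 1) n - c) := by
          rw [h4]; exact Dvd.dvd.mul_left h3 _
        exact (hpp.dvd_or_dvd h5).resolve_left hpa
    have h2 := h1 (e i) (he i).2.le
    apply hpc
    have h3 : (p : ℤ) ∣ (a - b) * LL a b β J (e i) n := Dvd.dvd.mul_left hi _
    have h4 := dvd_sub h3 h2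
    rwa [sub_sub_cancel] at h4

/-- exponents missing a class -/
theorem rat_miss {ι : Type*} {a b c : ℤ} {β : ℕ → ℤ} {J : ℕ}
    (hβ : ∀ i < J, a * β (i + 1) = b * β i + c) (e : ι → ℕ) (he : ∀ i, e i ≤ J) {p : ℕ} (hp : p.Prime)
    (hpa : ¬ (p : ℤ) ∣ a) (hp1 : (p : ℤ) ∣ a - b) (hpc : ¬ (p : ℤ) ∣ c) (r : ℕ)
    (hr : ∀ i, ¬ e i ≡ r [MOD p]) :
    ∃ n : ℤ, ∀ i, ¬ (p : ℤ) ∣ a ^ (J - e i) * b ^ e i * n + β (e i) := by
  have hpp := Nat.prime_iff_prime_int.1 hp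
  have hca : IsCoprime a (p : ℤ) := by
    apply coprime_of_prim
    rintro s hs ⟨h1, h2⟩
    have h3 := (Nat.prime_dvd_prime_iff_eq hs hp).1 (Int.natCast_dvd_natCast.1 h2)
    subst h3
    exact hpa h1
  obtain ⟨u, v, huv⟩ := hca
  obtain ⟨n, hn⟩ := hit (b := b) (β := β) (J := J) hp hpa (-(r * c) * u)
  refine ⟨n, fun i hi => ?_⟩
  have h1 : ∀ k : ℕ, k ≤ J → (p : ℤ) ∣ a * LL a b β J k n - (k - r) * c := by
    intro k
    induction k with
    | zero =>
      intro _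
      obtain ⟨w, hw⟩ := hn
      refine ⟨a * w + r * c * v, ?_⟩
      push_cast
      linear_combination a * hw + (-(r : ℤ) * c) * huv
    | succ k ih =>
      intro hk
      have h2 := LL_step hβ n (show k < J by omega)
      have h3 := ih (by omega)
      have h4 : a * LL a b β J (k + 1) n - (((k + 1 : ℕ) : ℤ) - r) * c =
          (a * LL a b β J k n - (k - r) * c) - (a - b) * LL a b β J k n := by
        push_cast
        linear_combination h2
      rw [h4]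
      exact dvd_sub h3 (Dvd.dvd.mul_right hp1 _)
  have h2 := h1 (e i) (he i)
  have h3 : (p : ℤ) ∣ a * LL a b β J (e i) n := Dvd.dvd.mul_left hi _
  have h4 := dvd_sub h3 h2
  rw [sub_sub_cancel] at h4
  rcases hpp.dvd_or_dvd h4 with h5 | h5
  · apply hr i
    have h6 : (r : ℤ) ≡ e i [ZMOD p] := Int.modEq_iff_dvd.2 h5
    exact ((Int.natCast_modEq_iff).1 h6).symm
  · exact hpc h5

theorem bad_not_dvd {a b : ℤ} (hab : IsCoprime a b) {p : ℕ} (hp : p.Prime) (h : (p : ℤ) ∣ a - b) :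
    ¬ (p : ℤ) ∣ a ∧ ¬ (p : ℤ) ∣ b := by
  have hpp := Nat.prime_iff_prime_int.1 hp
  constructor
  · intro h1
    have h2 := dvd_sub h1 h
    rw [sub_sub_cancel] at h2
    exact hpp.not_isUnit (hab.isUnit_of_dvd' h1 h2)
  · intro h1
    have h2 := dvd_add h h1
    rw [sub_add_cancel] at h2
    exact hpp.not_isUnit (hab.isUnit_of_dvd' h2 h1)

/-- the primes `q ≤ x` for which the `j`-th iterate of `y ↦ (b y + c) / a` at `q` is a prime and the earlier
ones (after the `0`-th) are integers which are not prime, up to sign -/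
def orb (a b c : ℤ) (j : ℕ) (x : ℝ) : Set ℕ :=
  {q : ℕ | (q : ℝ) ≤ x ∧ q.Prime ∧ (∃ p : ℕ, p.Prime ∧ a ^ j * p - b ^ j * q = cj a b c j) ∧
    ∀ t, 0 < t → t < j → ∃ y : ℤ, a ^ t * y - b ^ t * q = cj a b c t ∧ ¬ y.natAbs.Prime}

theorem orb_finite (a b c : ℤ) (j : ℕ) (x : ℝ) : (orb a b c j x).Finite := by
  apply (Set.finite_Iic ⌊x⌋₊).subset
  rintro q ⟨hq, -⟩
  exact Nat.le_floor hq

theorem rat_gen {C : ℕ} (hEF : EF C) (hLS : LS) (a b c : ℤ) (ha : 1 ≤ a) (hb : 1 ≤ b) (hc : c ≠ 0)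
    (hab : IsCoprime a b) (hac : IsCoprime a c) (hbc : IsCoprime b c) (hpar : ¬ (Odd a ∧ Odd b ∧ Odd c))
    (E : Finset ℕ) (L : List ℕ) (hL : ∀ p ∈ L, p.Prime)
    (hcls : ∀ p : ℕ, p.Prime → 3 ≤ p → p ≤ 43 → p ∈ L ∨ ((p : ℤ) ∣ a - b → ¬ (p : ℤ) ∣ c →
      ∃ r : ℕ, ∀ e ∈ E, ¬ e ≡ r [MOD p]))
    (hE : 45 ≤ left L E.card) :
    ∃ e ∈ E, ∃ e' ∈ E, e < e' ∧ ∃ᶠ x : ℝ in atTop,
      x / Real.log x ^ (C + 1) ≤ ((orb a b c (e' - e) x).ncard : ℝ) := by
  classical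
  have hlt : ∀ e ∈ E, e < E.sup id + 1 := fun e he => Nat.lt_succ_of_le (Finset.le_sup (f := id) he)
  obtain ⟨m, hm⟩ : ∃ m, m = E.sup id + 1 := ⟨_, rfl⟩
  rw [← hm] at hlt
  obtain ⟨S, hS⟩ : ∃ S : Finset (Fin m), S = univ.filter (fun i : Fin m => (i : ℕ) ∈ E) := ⟨_, rfl⟩
  have hSE : S.map Fin.valEmbedding = E := by
    ext e
    rw [hS]
    simp only [Finset.mem_map, mem_filter, mem_univ, true_and, Fin.valEmbedding_apply]
    constructor
    · rintro ⟨i, hi, rfl⟩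
      exact hi
    · intro he
      exact ⟨⟨e, hlt e he⟩, he, rfl⟩
  have hScard : S.card = E.card := by
    rw [← hSE, Finset.card_map]
  have hmem : ∀ i ∈ S, (i : ℕ) ∈ E := by
    intro i hi
    rw [hS, mem_filter] at hi
    exact hi.2
  obtain ⟨J, hJ⟩ : ∃ J, J = m + 1 := ⟨_, rfl⟩
  obtain ⟨β, hβ⟩ := exists_beta a b c (by omega) hab J
  have hSJ : ∀ i : Fin m, 1 ≤ (i : ℕ) + 1 ∧ (i : ℕ) + 1 < J := fun i => ⟨by omega, by have := i.2; omega⟩
  have hpos : ∀ i : Fin m, 1 ≤ a ^ (J - ((i : ℕ) + 1)) * b ^ ((i : ℕ) + 1) := by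
    intro i
    have : (0 : ℤ) < a ^ (J - ((i : ℕ) + 1)) * b ^ ((i : ℕ) + 1) := by positivity
    omega
  have hprim : ∀ i : Fin m, ∀ p : ℕ, p.Prime →
      ¬ ((p : ℤ) ∣ a ^ (J - ((i : ℕ) + 1)) * b ^ ((i : ℕ) + 1) ∧ (p : ℤ) ∣ β ((i : ℕ) + 1)) := by
    rintro i r hr ⟨h1, h2⟩
    have hrr := Nat.prime_iff_prime_int.1 hr
    refine forms_cop hac hbc hβ (hSJ i).1 (hSJ i).2 hr ?_ h2
    rcases hrr.dvd_or_dvd h1 with h2 | h2
    · exact Dvd.dvd.mul_right (hrr.dvd_of_dvd_pow h2) _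
    · exact Dvd.dvd.mul_left (hrr.dvd_of_dvd_pow h2) _
  obtain ⟨i, hi, j, hj, hij, h⟩ := any_forms hEF hLS
    (fun i : Fin m => a ^ (J - ((i : ℕ) + 1)) * b ^ ((i : ℕ) + 1))
    (fun i : Fin m => β ((i : ℕ) + 1)) hpos hprim
    (by
      intro i j hij
      apply nonprop (hpos i) (hpos j) (coprime_of_prim (hprim i)) (coprime_of_prim (hprim j))
      intro heq
      rw [Prod.mk.injEq] at heq
      have := forms_inj ha hb hc hab hβ (hSJ i).2.le (hSJ j).2.le heq.1 heq.2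
      exact hij (Fin.ext (by omega)))
    S L hL
    (by
      intro p hp h43
      by_cases hpL : p ∈ L
      · exact Or.inl hpL
      right
      obtain ⟨n, hn⟩ := rat_admissible hab hac hbc hpar hβ (fun i : S => ((i : Fin m) : ℕ) + 1)
        (fun i => hSJ i) hp (by
          intro h3 hp1 hpc
          obtain ⟨r, hr⟩ := (hcls p hp h3 h43).resolve_left hpL hp1 hpc
          refine rat_miss hβ (fun i : S => ((i : Fin m) : ℕ) + 1) (fun i => (hSJ i).2.le) hp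
            (bad_not_dvd hab hp hp1).1 hp1 hpc (r + 1) (fun i h => hr _ (hmem _ i.2) ?_)
          exact Nat.ModEq.add_right_cancel' 1 h)
      exact ⟨n, fun i hi => hn ⟨i, hi⟩⟩)
    (by rw [hScard]; exact hE)
  refine ⟨i, hmem i hi, j, hmem j hj, hij, h.mono fun x hx => hx.trans ?_⟩
  refine Nat.cast_le.2 (Set.ncard_le_ncard ?_ (orb_finite _ _ _ _ _))
  have hij' : (i : ℕ) < j := hij
  have key : ∀ (n : ℤ) (q : ℕ) (t : ℕ), (i : ℕ) + t < m → a ^ (J - ((i : ℕ) + 1)) * b ^ ((i : ℕ) + 1) * n + β ((i : ℕ) + 1) = q →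
      a ^ t * (a ^ (J - ((i : ℕ) + t + 1)) * b ^ ((i : ℕ) + t + 1) * n + β ((i : ℕ) + t + 1)) - b ^ t * q = cj a b c t := by
    intro n q t ht hq
    have h2 := LL_iter hβ n ((i : ℕ) + 1) t (by omega)
    rw [show (i : ℕ) + 1 + t = (i : ℕ) + t + 1 by ring] at h2
    unfold LL at h2
    rw [← hq]
    linear_combination h2
  rintro q ⟨hq1, hq2, n, h3, ⟨p, hp, h4⟩, h5⟩
  refine ⟨hq1, hq2, ⟨p, hp, ?_⟩, ?_⟩
  · have h6 : (i : ℕ) + (j - i) = j := by omega
    have h7 := key n q (j - i) (by rw [h6]; exact j.2) h3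
    rw [h6, h4] at h7
    exact h7
  · intro t ht0 ht1
    have h6 : (i : ℕ) + t < m := by have := j.2; omega
    have h7 := h5 ⟨(i : ℕ) + t, h6⟩ (by rw [Fin.lt_def]; simp; omega) (by rw [Fin.lt_def]; simp; omega)
    exact ⟨_, key n q t h6 h3, h7⟩

/-- no odd prime up to `k` divides `a - b` without dividing `c` -/
def Ok (k : ℕ) (a b c : ℤ) : Prop := ∀ p : ℕ, p.Prime → 3 ≤ p → p ≤ k → (p : ℤ) ∣ a - b → (p : ℤ) ∣ c

theorem rat_first {C : ℕ} (hEF : EF C) (hLS : LS) (a b c : ℤ) (ha : 1 ≤ a) (hb : 1 ≤ b) (hc : c ≠ 0)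
    (hab : IsCoprime a b) (hac : IsCoprime a c) (hbc : IsCoprime b c) (hpar : ¬ (Odd a ∧ Odd b ∧ Odd c))
    (k K : ℕ) (hk : Ok k a b c) (E : Finset ℕ) (hE : E.card = 45)
    (hK : ∀ e ∈ E, e ≤ K) (hcls : ∀ p : ℕ, p.Prime → p ≤ 43 → p ≤ k ∨ ∃ c : ℕ, ∀ e ∈ E, ¬ e % p = c % p) :
    ∃ j, 1 ≤ j ∧ j ≤ K ∧ ∃ᶠ x : ℝ in atTop,
      x / Real.log x ^ (C + 1) ≤ ((orb a b c j x).ncard : ℝ) := by
  obtain ⟨e, he, e', he', hee, h⟩ := rat_gen hEF hLS a b c ha hb hc hab hac hbc hpar E [] (by simp)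
    (by
      intro p hp h3 h43
      right
      intro h4 h5
      rcases hcls p hp h43 with h6 | ⟨c, hc⟩
      · exact absurd (hk p hp h3 h6 h4) h5
      · exact ⟨c, hc⟩)
    (by rw [hE]; exact le_refl _)
  exact ⟨e' - e, by omega, by have := hK e' he'; omega, h⟩

theorem rat_set {C : ℕ} (hEF : EF C) (hLS : LS) (a b c : ℤ) (ha : 1 ≤ a) (hb : 1 ≤ b) (hc : c ≠ 0)
    (hab : IsCoprime a b) (hac : IsCoprime a c) (hbc : IsCoprime b c) (hpar : ¬ (Odd a ∧ Odd b ∧ Odd c))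
    (k : ℕ) (hk : Ok k a b c) (E : Finset ℕ) (L : List ℕ) (N : ℕ)
    (hL : ∀ p ∈ L, p.Prime) (hLk : ∀ p : ℕ, p.Prime → 3 ≤ p → p ≤ 43 → p ≤ k ∨ p ∈ L)
    (hN : left L N = 45) (hE : N ≤ E.card) :
    ∃ e ∈ E, ∃ e' ∈ E, e < e' ∧ ∃ᶠ x : ℝ in atTop,
      x / Real.log x ^ (C + 1) ≤ ((orb a b c (e' - e) x).ncard : ℝ) :=
  rat_gen hEF hLS a b c ha hb hc hab hac hbc hpar E L hL
    (by
      intro p hp h3 h43
      rcases hLk p hp h3 h43 with h6 | h6
      · exact Or.inr fun h4 h5 => absurd (hk p hp h3 h6 h4) h5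
      · exact Or.inl h6)
    (by rw [← hN]; exact left_mono L hE)

end Pool.Agent.Helper245.G45.Ra
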